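import Pool.Agent.W2helper22.SM.Log

set_option autoImplicit false

/-! # Executions of the reduction -/

namespace Pool.Agent.W2helper22.SM

instance : Inhabited Mem := ⟨⟨fun _ => 0, fun _ _ _ => 0⟩⟩

theorem Expr.ok.val_lt {W : ℕ} {ω : ℕ → ℕ → ℕ} {m : Mem} {e : Expr} (h : e.ok W ω m) :
    e.eval ω m < W := by
  cases e with
  | lit n => exact h
  | reg x => exact h
  | bin o e f => exact h.2.2
  | get r i j => exact h.2.2
  | rnd i j => exact h.2.2

/-- The entries of the arrays remain words. -/
theorem Runs.entries_lt {W : ℕ} {ω : ℕ → ℕ → ℕ} {p : Prog} {m m' : Mem} {c : ℕ}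
    (h : Runs W ω p m m' c) (hm : ∀ r i j, m.a r i j < W) : ∀ r i j, m'.a r i j < W := by
  induction h with
  | skip m => exact hm
  | assign x e m _ => exact hm
  | store r i j e m _ _ he =>
    intro r' i' j'
    simp only [Mem.setA]
    split_ifs
    · exact he.val_lt
    · exact hm _ _ _
  | seq _ _ ih1 ih2 => exact ih2 (ih1 hm)
  | ite_true _ _ _ ih => exact ih hm
  | ite_false _ _ _ ih => exact ih hm
  | loop_done _ _ => exact hm
  | loop_step _ _ _ _ ih1 ih2 => exact ih2 (ih1 hm)

theorem init_entries_lt {W n : ℕ} (M : Fin n → Fin n → Bool) (hW : 1 < W) :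
    ∀ r i j, (init M).a r i j < W := by
  intro r i j
  simp only [init]
  split_ifs with h
  · exact lt_of_le_of_lt (Bool.toNat_le _) hW
  · omega

theorem load_entries_lt {W n : ℕ} (m : Mem) (u : Fin n → Bool) (hW : 1 < W)
    (hm : ∀ r i j, m.a r i j < W) : ∀ r i j, (m.load u).a r i j < W := by
  intro r i j
  simp only [Mem.load]
  split_ifs with h
  · exact lt_of_le_of_lt (Bool.toNat_le _) hW
  · exact hm _ _ _

theorem BigW.two_lt {P : Alg} {a b n W' : ℕ} (h : BigW P a b n W') : 1 < W' := by
  have h2 := h.2.2.2.2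
  have h3 : 8 * 200 * 1 * 1 ≤ 8 * (P.W n + P.pre.mx + P.qry.mx + a + b + 200) * (n + 1) *
      (cL a b n + 1) := by
    refine Nat.mul_le_mul (Nat.mul_le_mul (Nat.mul_le_mul_left _ (by omega)) (by omega)) (by omega)
  omega

section General

variable {W : ℕ} {ω : ℕ → ℕ → ℕ} {A : Alg} {n : ℕ} {M v : Fin n → Fin n → Bool}

theorem Exec.weaken {G G' : Fin n → Mem → Prop} (hG : ∀ i m, G i m → G' i m) {k : ℕ} {m : Mem}
    {t : ℕ} (h : Exec W ω A M v G k m t) : Exec W ω A M v G' k m t := by
  induction h with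
  | start h => exact .start h
  | next h _ hr hg ih => exact .next h ih hr (hG _ _ hg)

theorem Exec.det {G G' : Fin n → Mem → Prop} {k : ℕ} {m m' : Mem} {t t' : ℕ}
    (h : Exec W ω A M v G k m t) (h' : Exec W ω A M v G' k m' t') : m = m' ∧ t = t' := by
  induction h generalizing m' t' with
  | start h =>
    cases h' with
    | start h' => exact h.det h'
  | next hk _ hr _ ih =>
    cases h' with
    | next hk' h' hr' _ =>
      obtain ⟨rfl, rfl⟩ := ih h'
      obtain ⟨rfl, rfl⟩ := hr.det hr'
      exact ⟨rfl, rfl⟩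

/-- The states of an execution. -/
theorem Exec.states {N : ℕ} {m : Mem} {t : ℕ} (h : Exec W ω A M v (fun _ _ => True) N m t) :
    ∃ (st : ℕ → Mem) (tm : ℕ → ℕ), tm N = t ∧ Runs W ω A.pre (init M) (st 0) (tm 0) ∧
      (∀ k ≤ N, Exec W ω A M v (fun _ _ => True) k (st k) (tm k)) ∧
      ∀ k < N, ∃ (hk : k < n) (c : ℕ),
        Runs W ω A.qry ((st k).load (v ⟨k, hk⟩)) (st (k + 1)) c ∧ tm (k + 1) = tm k + c := by
  generalize hG : (fun (_ : Fin n) (_ : Mem) => True) = G at h
  induction h with
  | @start m t h =>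
    subst hG
    refine ⟨fun _ => m, fun _ => t, rfl, h, ?_, ?_⟩
    · intro k hk
      obtain rfl : k = 0 := by omega
      exact .start h
    · intro k hk
      omega
  | @next k m m' t c hk _ hr hg ih =>
    subst hG
    obtain ⟨st, tm, h1, h2, h3, h4⟩ := ih
    have hst : st k = m := by
      have := (h3 k le_rfl).det ‹Exec W ω A M v (fun _ _ => True) k m t›
      exact this.1
    refine ⟨fun i => if i = k + 1 then m' else st i, fun i => if i = k + 1 then t + c else tm i,
      by simp, ?_, ?_, ?_⟩
    · simpa using h2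
    · intro i hi
      by_cases hik : i = k + 1
      · subst hik
        simp only [if_true]
        exact .next hk ‹_› hr trivial
      · simp only [hik, if_false]
        exact h3 i (by omega)
    · intro i hi
      by_cases hik : i = k
      · subst hik
        refine ⟨hk, c, ?_, ?_⟩
        · have h5 : ¬ (i = i + 1) := by omega
          simp only [if_true, h5, if_false]
          rw [hst]
          exact hr
        · have h5 : ¬ (i = i + 1) := by omega
          simp only [if_true, h5, if_false]
          rw [h1]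
      · obtain ⟨hk', c', h6, h7⟩ := h4 i (by omega)
        refine ⟨hk', c', ?_, ?_⟩
        · have h8 : ¬ (i = k + 1) := by omega
          have h9 : ¬ (i + 1 = k + 1) := by omega
          simp only [h8, h9, if_false]
          exact h6
        · have h8 : ¬ (i = k + 1) := by omega
          have h9 : ¬ (i + 1 = k + 1) := by omega
          simp only [h8, h9, if_false]
          exact h7

end General

/-- The answer bit `r` of the algorithm to the vector `v i`. -/
def outBit (A : Alg) (W : ℕ) (ω : ℕ → ℕ → ℕ) {n : ℕ} (M v : Fin n → Fin n → Bool)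
    (i r : Fin n) : Prop :=
  ∃ m t, Exec W ω A M v (fun _ _ => True) ((i : ℕ) + 1) m t ∧ m.a 2 0 r ≠ 0

/-- The answers of the reduction: block by block the majority of the copies. -/
def Maj (P : Alg) (a b : ℕ) {n : ℕ} (ω' : ℕ → ℕ → ℕ) (ω : ℕ → ℕ → ℕ → ℕ)
    (M v : Fin n → Fin n → Bool) (i : Fin n) (m : Mem) : Prop :=
  ∀ r : Fin n, (m.a 2 0 r ≠ 0 ↔ ∃ blk < cB a b n,
    cK n < 2 * Nat.card {j : Fin (cK n) // outBit P (P.W n) (ω (blk * cK n + j))
      (noisy a b M ω' j) (fun i => maskv a b (v i) blk) i r})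

theorem exec_red (hlog : P_LOG) (hsim : P_SIM) (hpre : P_PRE) (hqry : P_QRY) (P : Alg)
    (a b n W' : ℕ) (ω' : ℕ → ℕ → ℕ) (ω : ℕ → ℕ → ℕ → ℕ) (M v : Fin n → Fin n → Bool) (T : ℕ)
    (hW : BigW P a b n W') (hc : Coins P a b n ω' ω)
    (hex : ∀ blk < cB a b n, ∀ j < cK n, ∃ m t, t ≤ T ∧
      Exec (P.W n) (ω (blk * cK n + j)) P (noisy a b M ω' j) (fun i => maskv a b (v i) blk)
        (fun _ _ => True) n m t) :
    ∃ m' t', Exec W' ω' (red P a b) M v (Maj P a b ω' ω M v) n m' t' ∧
      t' ≤ 2000 * (cL a b n + 1) * (n + 1) ^ 2 + 10 * (cL a b n * T) := by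
  classical
  have hK : 0 < cK n := by unfold cK; omega
  choose! mf tf hT hE using hex
  have hst : ∀ blk < cB a b n, ∀ j < cK n, ∃ (st : ℕ → Mem) (tm : ℕ → ℕ), tm n = tf blk j ∧
      Runs (P.W n) (ω (blk * cK n + j)) P.pre (init (noisy a b M ω' j)) (st 0) (tm 0) ∧
      (∀ k ≤ n, Exec (P.W n) (ω (blk * cK n + j)) P (noisy a b M ω' j)
        (fun i => maskv a b (v i) blk) (fun _ _ => True) k (st k) (tm k)) ∧
      ∀ k < n, ∃ (hk : k < n) (c : ℕ),
        Runs (P.W n) (ω (blk * cK n + j)) P.qry ((st k).load (maskv a b (v ⟨k, hk⟩) blk))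
          (st (k + 1)) c ∧ tm (k + 1) = tm k + c :=
    fun blk hblk j hj => (hE blk hblk j hj).states
  choose! st tm h1 h2 h3 h4 using hst
  -- index form
  have hdiv : ∀ blk j, j < cK n → (blk * cK n + j) / cK n = blk := by
    intro blk j hj
    rw [Nat.mul_comm, Nat.mul_add_div hK, Nat.div_eq_of_lt hj, Nat.add_zero]
  have hmod : ∀ blk j, j < cK n → (blk * cK n + j) % cK n = j := by
    intro blk j hj
    rw [Nat.mul_comm, Nat.mul_add_mod, Nat.mod_eq_of_lt hj]
  let μ : ℕ → ℕ → Mem := fun k idx => st (idx / cK n) (idx % cK n) k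
  let τ : ℕ → ℕ → ℕ := fun k idx => tm (idx / cK n) (idx % cK n) k
  have hμ : ∀ k blk j, j < cK n → μ k (blk * cK n + j) = st blk j k := by
    intro k blk j hj
    simp only [μ, hdiv blk j hj, hmod blk j hj]
  have hτ : ∀ k blk j, j < cK n → τ k (blk * cK n + j) = tm blk j k := by
    intro k blk j hj
    simp only [τ, hdiv blk j hj, hmod blk j hj]
  have hidx : ∀ idx < cL a b n, idx / cK n < cB a b n ∧ idx % cK n < cK n := by
    intro idx hidx
    refine ⟨?_, Nat.mod_lt _ hK⟩
    rw [Nat.div_lt_iff_lt_mul hK]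
    exact hidx
  have hstep : ∀ k ≤ n, ∃ m' t', Exec W' ω' (red P a b) M v (Maj P a b ω' ω M v) k m' t' ∧
      Regs a b n m' ∧ (∀ r i j, m'.a r i j < W') ∧
      (∀ idx < cL a b n, Inst (cL a b n) idx m' (μ k idx)) ∧
      t' ≤ 1000 * (cL a b n + 1) * (n + 1) ^ 2 + k * (1000 * (cL a b n + 1) * (n + 1)) +
        10 * ∑ idx ∈ Finset.range (cL a b n), τ k idx := by
    intro k
    induction k with
    | zero =>
      intro _
      have := hpre hlog hsim P a b n W' ω' ω M (μ 0) (τ 0) hW hc (by
        intro blk hblk j hj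
        rw [hμ 0 blk j hj, hτ 0 blk j hj]
        exact h2 blk hblk j hj)
      obtain ⟨m', t', hr, ht, hq⟩ := this
      refine ⟨m', t', .start hr, hq.1, hr.entries_lt (init_entries_lt M hW.two_lt), hq.2, ?_⟩
      simpa using ht
    | succ k ih =>
      intro hk
      obtain ⟨m, t, he, hreg, hbd, hinst, ht⟩ := ih (by omega)
      have hkn : k < n := by omega
      let cc : ℕ → ℕ := fun idx => τ (k + 1) idx - τ k idx
      have hcc : ∀ blk < cB a b n, ∀ j < cK n,
          Runs (P.W n) (ω (blk * cK n + j)) P.qry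
            ((μ k (blk * cK n + j)).load (maskv a b (v ⟨k, hkn⟩) blk))
            (μ (k + 1) (blk * cK n + j)) (cc (blk * cK n + j)) := by
        intro blk hblk j hj
        obtain ⟨_, c, hr, hcm⟩ := h4 blk hblk j hj k hkn
        have : cc (blk * cK n + j) = c := by
          simp only [cc]
          rw [hτ _ blk j hj, hτ _ blk j hj, hcm]
          omega
        rw [this, hμ _ blk j hj, hμ _ blk j hj]
        exact hr
      have hmono : ∀ idx < cL a b n, τ k idx ≤ τ (k + 1) idx := by
        intro idx hidx'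
        obtain ⟨hb, hj⟩ := hidx idx hidx'
        obtain ⟨_, c, hr, hcm⟩ := h4 _ hb _ hj k hkn
        simp only [τ]
        rw [hcm]
        omega
      obtain ⟨m', c', hr, hcle, hreg', hinst', hout⟩ :=
        hqry hsim P a b n W' ω' ω (v ⟨k, hkn⟩) m (μ k) (μ (k + 1)) cc hW hc hreg hbd hinst hcc
      refine ⟨m', t + c', .next hkn he hr ?_, hreg',
        hr.entries_lt (load_entries_lt _ _ hW.two_lt hbd), hinst', ?_⟩
      · intro r
        rw [hout r]
        have hcnt : ∀ blk < cB a b n, ((Finset.range (cK n)).filter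
            (fun j => (μ (k + 1) (blk * cK n + j)).a 2 0 r ≠ 0)).card =
            Nat.card {j : Fin (cK n) // outBit P (P.W n) (ω (blk * cK n + j))
              (noisy a b M ω' j) (fun i => maskv a b (v i) blk) ⟨k, hkn⟩ r} := by
          intro blk hblk
          rw [Nat.card_eq_fintype_card, Fintype.card_subtype]
          refine Finset.card_bij' (fun j hj => ⟨j, by simpa using (Finset.mem_filter.1 hj).1⟩)
            (fun j _ => (j : ℕ)) ?_ ?_ ?_ ?_
          · intro j hj
            rw [Finset.mem_filter] at hj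
            have hjK : j < cK n := by simpa using hj.1
            refine Finset.mem_filter.2 ⟨Finset.mem_univ _, ?_⟩
            have h8 := hj.2
            rw [hμ _ blk j hjK] at h8
            exact ⟨st blk j (k + 1), tm blk j (k + 1), h3 blk hblk j hjK (k + 1) hk, h8⟩
          · intro j hj
            rw [Finset.mem_filter] at hj
            obtain ⟨m1, t1, he1, hne⟩ := hj.2
            rw [Finset.mem_filter]
            refine ⟨by simp, ?_⟩
            have := (h3 blk hblk j j.2 (k + 1) hk).det he1
            rw [hμ _ blk j j.2, this.1]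
            exact hne
          · intro j hj; rfl
          · intro j hj; rfl
        constructor
        · rintro ⟨blk, hblk, hlt⟩
          exact ⟨blk, hblk, by rw [← hcnt blk hblk]; exact hlt⟩
        · rintro ⟨blk, hblk, hlt⟩
          exact ⟨blk, hblk, by rw [hcnt blk hblk]; exact hlt⟩
      · have hsum : ∑ idx ∈ Finset.range (cL a b n), τ k idx +
            ∑ idx ∈ Finset.range (cL a b n), cc idx =
            ∑ idx ∈ Finset.range (cL a b n), τ (k + 1) idx := by
          rw [← Finset.sum_add_distrib]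
          refine Finset.sum_congr rfl ?_
          intro idx hidx'
          have := hmono idx (by simpa using hidx')
          simp only [cc]
          omega
        rw [← hsum]
        have : (k + 1) * (1000 * (cL a b n + 1) * (n + 1)) =
            k * (1000 * (cL a b n + 1) * (n + 1)) + 1000 * (cL a b n + 1) * (n + 1) := by ring
        rw [this]
        omega
  obtain ⟨m', t', he, _, _, _, ht⟩ := hstep n le_rfl
  refine ⟨m', t', he, ht.trans ?_⟩
  have hsum : ∑ idx ∈ Finset.range (cL a b n), τ n idx ≤ cL a b n * T := by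
    calc ∑ idx ∈ Finset.range (cL a b n), τ n idx
        ≤ ∑ idx ∈ Finset.range (cL a b n), T := by
          refine Finset.sum_le_sum ?_
          intro idx hidx'
          obtain ⟨hb, hj⟩ := hidx idx (by simpa using hidx')
          simp only [τ]
          rw [h1 _ hb _ hj]
          exact hT _ hb _ hj
      _ = cL a b n * T := by rw [Finset.sum_const, Finset.card_range, smul_eq_mul]
  have h5 : n * (1000 * (cL a b n + 1) * (n + 1)) ≤ 1000 * (cL a b n + 1) * (n + 1) ^ 2 := by
    have : n * (1000 * (cL a b n + 1) * (n + 1)) = 1000 * (cL a b n + 1) * (n * (n + 1)) := by ring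
    rw [this]
    refine Nat.mul_le_mul_left _ ?_
    nlinarith
  have h6 : 2000 * (cL a b n + 1) * (n + 1) ^ 2 = 1000 * (cL a b n + 1) * (n + 1) ^ 2 +
      1000 * (cL a b n + 1) * (n + 1) ^ 2 := by ring
  rw [h6]
  have h7 := Nat.mul_le_mul_left 10 hsum
  omega

end Pool.Agent.W2helper22.SM
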