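import Pool.Agent.W2helper22.SM.Stm

set_option autoImplicit false

/-! # Piece LOG: the program for `log₂ n` -/

namespace Pool.Agent.W2helper22.SM

theorem setV_setV (m : Mem) (x a b : ℕ) : (m.setV x a).setV x b = m.setV x b := by
  ext y i j k
  · simp only [setV_v]; split <;> rfl
  · rfl

theorem logP_ok : P_LOG := by
  intro W n ω m hn hW h0
  have hlog : Nat.log 2 n ≤ n := Nat.log_le_self 2 n
  have hpow : 2 ^ Nat.log 2 n ≤ n := Nat.pow_log_le_self 2 (by omega)
  have hlt : n < 2 ^ (Nat.log 2 n + 1) := Nat.lt_pow_succ_log_self (by norm_num) n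
  have key := Tr.loop (W := W) (ω := ω)
    (t := .not (.lt (.reg 0) (eShl (.lit 1) (eAdd (.reg 3) (.lit 1)))))
    (p := .assign 3 (eAdd (.reg 3) (.lit 1)))
    (fun k m' => m' = m.setV 3 k) (fun _ => 4) (Nat.log 2 n)
    (by
      rintro k hk m' rfl
      have h2 : 2 ^ (k + 1) ≤ 2 * n := by
        calc 2 ^ (k + 1) ≤ 2 ^ (Nat.log 2 n + 1) := Nat.pow_le_pow_right (by norm_num) (by omega)
          _ ≤ 2 * n := by rw [pow_succ]; omega
      have hv0 : (m.setV 3 k).v 0 = n := by simp [setV_v, h0]
      have hv3 : (m.setV 3 k).v 3 = k := by simp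
      refine ⟨?_, ?_⟩
      · refine ⟨?_, ⟨?_, ⟨?_, ?_, ?_⟩, ?_⟩⟩
        · show (m.setV 3 k).v 0 < W
          omega
        · show 1 < W
          omega
        · show (m.setV 3 k).v 3 < W
          omega
        · show 1 < W
          omega
        · show (m.setV 3 k).v 3 + 1 < W
          omega
        · show 1 <<< ((m.setV 3 k).v 3 + 1) < W
          rw [hv3, Nat.one_shiftLeft]
          omega
      · show ¬ ((m.setV 3 k).v 0 < 1 <<< ((m.setV 3 k).v 3 + 1)) ↔ _
        rw [hv0, hv3, Nat.one_shiftLeft]
        constructor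
        · intro h
          by_contra hk'
          have : k = Nat.log 2 n := by omega
          rw [this] at h
          omega
        · intro h
          have : 2 ^ (k + 1) ≤ 2 ^ Nat.log 2 n := Nat.pow_le_pow_right (by norm_num) (by omega)
          omega)
    (by
      rintro k hk m' rfl
      refine Tr.assign (e := eAdd (.reg 3) (.lit 1)) ⟨?_, ?_, ?_⟩ ?_
      · show (m.setV 3 k).v 3 < W
        simp; omega
      · show 1 < W
        omega
      · show (m.setV 3 k).v 3 + 1 < W
        simp; omega
      · have : (eAdd (.reg 3) (.lit 1)).eval ω (m.setV 3 k) = k + 1 := by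
          simp [Expr.eval, Op.fn]
        rw [this, setV_setV])
    0 (by omega) (m.setV 3 0) rfl
  have hall : Tr W ω logP m (2 + (8 + Nat.log 2 n * 12)) (fun m' => m' = m.setV 3 (Nat.log 2 n)) := by
    refine Tr.seq (Tr.assign (e := .lit 0) (show 0 < W by omega) ?_)
    refine key.le ?_
    simp [Test.cost, Expr.cost]
  refine hall.le ?_
  omega

end Pool.Agent.W2helper22.SM
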