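import Pool.Agent.W2helper22.SM.Stm

set_option autoImplicit false

/-!
# Project SM, part 2: noise in the matrix and in the vectors

THEOREM. Flip the entries of the matrix with probability `n ^ (-c)` and the entries of the vectors
with probability `n ^ (-d)` (`c, d ∈ (0, 1]` or no noise, which counts as `1` in the formulas).
If `c + d > 1`, then the exponent of the smoothed problem is `2 + min (c, d)` (upper bound
unconditional, lower bound under the OMv conjecture); if `c + d < 1` it is `2`.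
-/

namespace Pool.Agent.W2helper22.SM

/-! ## The reduction -/

/-- Length of a block of columns, number of blocks, number of copies. -/
def ds (a b n : ℕ) : ℕ := noise a b n / 256
def dB (a b n : ℕ) : ℕ := n / ds a b n + 1
def dL (a b n : ℕ) : ℕ := dB a b n * cK n

/-- `den`, from `log₂ n` in the register `3`. -/
def Level.denE : Level → Expr
  | none => .lit 1
  | some p => eShl (.lit 1) (eDiv (eMul (.lit p.1) (.reg 3)) (.lit p.2))

/-- `1` if the column in the register `x` is in the block `r_8`, otherwise `0`. -/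
def maskE (x : ℕ) : Expr :=
  eSub (.lit 1) (eAdd (eSub (eDiv (.reg x) (.reg 6)) (.reg 8))
    (eSub (.reg 8) (eDiv (.reg x) (.reg 6))))

/-- The entry `(r_12, r_13)` of the matrix of the block `r_8` with noise, for the copy `r_9`. -/
def entry2E (c : Level) : Expr :=
  eMod (eAdd (eMul (.get 0 (.reg 12) (.reg 13)) (maskE 13))
    (eSub (.lit c.num) (eMod (.rnd (eAdd (eMul (.lit 2) (.reg 12)) (.lit 1))
      (eAdd (eMul (.reg 13) (.reg 5)) (.reg 9))) (.reg 4)))) (.lit 2)

/-- The entry `r_12` of the part of the vector in the block `r_8` with noise, for the copy `r_9`;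
the number of the query is in the register `10`. -/
def entry3E (d : Level) : Expr :=
  eMod (eAdd (eMul (.get 1 (.lit 0) (.reg 12)) (maskE 12))
    (eSub (.lit d.num) (eMod (.rnd (eAdd (eMul (.lit 2) (.reg 10)) (.lit 1))
      (eAdd (eMul (eAdd (.reg 0) (.reg 12)) (.reg 5)) (.reg 9))) (.reg 14)))) (.lit 2)

def setP2 (P : Alg) (c : Level) : Prog :=
  .seq (.assign 1 (eAdd (eMul (.reg 8) (.reg 5)) (.reg 9)))
    (.seq (forR 12 (.reg 0) (forR 13 (.reg 0)
        (.store 11 (.reg 12) (eAdd (eMul (.reg 13) (.reg 2)) (.reg 1)) (entry2E c))))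
      (.seq (.store 10 (.lit 0) (.reg 1) (.reg 0)) P.pre.sim))

/-- Preprocessing. The parameters `a`, `b` determine the length of the blocks. -/
def red2Pre (P : Alg) (c d : Level) (a b : ℕ) : Prog :=
  .seq logP
    (.seq (.assign 4 c.denE)
    (.seq (.assign 14 d.denE)
    (.seq (.assign 5 (eAdd (eMul (.lit 100) (eAdd (.reg 3) (.lit 1))) (.lit 1)))
    (.seq (.assign 6 (eDiv (eShl (.lit 1) (eDiv (eMul (.lit a) (.reg 3)) (.lit b))) (.lit 256)))
    (.seq (.assign 7 (eAdd (eDiv (.reg 0) (.reg 6)) (.lit 1)))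
    (.seq (.assign 2 (eMul (.reg 7) (.reg 5)))
    (.seq (.assign 10 (.lit 0))
      (forR 8 (.reg 7) (forR 9 (.reg 5) (setP2 P c))))))))))

def askP2 (P : Alg) (d : Level) : Prog :=
  .seq (.assign 1 (eAdd (eMul (.reg 8) (.reg 5)) (.reg 9)))
    (.seq (forR 12 (.reg 0)
        (.store 12 (.lit 0) (eAdd (eMul (.reg 12) (.reg 2)) (.reg 1)) (entry3E d)))
      (.seq P.qry.sim
        (forR 12 (.reg 0)
          (.store 3 (.lit 0) (.reg 12) (eAdd (.get 3 (.lit 0) (.reg 12))
            (eSub (.lit 1) (eSub (.lit 1)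
              (.get 13 (.lit 0) (eAdd (eMul (.reg 12) (.reg 2)) (.reg 1))))))))))

def red2Qry (P : Alg) (d : Level) : Prog :=
  .seq (forR 12 (.reg 0) (.store 2 (.lit 0) (.reg 12) (.lit 0)))
    (.seq (forR 8 (.reg 7)
      (.seq (forR 12 (.reg 0) (.store 3 (.lit 0) (.reg 12) (.lit 0)))
        (.seq (forR 9 (.reg 5) (askP2 P d))
          (forR 12 (.reg 0)
            (.ite (.lt (.reg 5) (eMul (.lit 2) (.get 3 (.lit 0) (.reg 12))))
              (.store 2 (.lit 0) (.reg 12) (.lit 1)) .skip)))))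
      (.assign 10 (eAdd (.reg 10) (.lit 1))))

/-- The algorithm for OMv which uses an algorithm `P` for smoothed OMv. -/
def red2 (P : Alg) (c d : Level) (a b : ℕ) : Alg := ⟨red2Pre P c d a b, red2Qry P d, P.wd + 40⟩

/-- The registers of the reduction after `i` queries. -/
def Regs2 (d : Level) (a b n i : ℕ) (m : Mem) : Prop :=
  m.v 0 = n ∧ m.v 2 = dL a b n ∧ m.v 5 = cK n ∧ m.v 6 = ds a b n ∧ m.v 7 = dB a b n ∧
    m.v 10 = i ∧ m.v 14 = d.den n

/-- The part of the rows of `M` in the block of columns with the number `blk`. -/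
def maskm (a b : ℕ) {n : ℕ} (M : Fin n → Fin n → Bool) (blk : ℕ) : Fin n → Fin n → Bool :=
  fun i k => M i k && decide ((k : ℕ) / ds a b n = blk)

/-- The matrix of the block `blk` with the noise of the copy `j` (`j < K`). -/
def noisyM (c : Level) (a b : ℕ) {n : ℕ} (M : Fin n → Fin n → Bool) (ω' : ℕ → ℕ → ℕ)
    (blk j : ℕ) : Fin n → Fin n → Bool :=
  fun r k => xor (maskm a b M blk r k)
    (decide (ω' (2 * (r : ℕ) + 1) ((k : ℕ) * cK n + j) % c.den n < c.num))

/-- The vectors of the block `blk` with the noise of the copy `j` (`j < K`). -/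
def noisyV (d : Level) (a b : ℕ) {n : ℕ} (v : Fin n → Fin n → Bool) (ω' : ℕ → ℕ → ℕ)
    (blk j : ℕ) : Fin n → Fin n → Bool :=
  fun i k => xor (maskm a b v blk i k)
    (decide (ω' (2 * (i : ℕ) + 1) ((n + (k : ℕ)) * cK n + j) % d.den n < d.num))

/-- Size of a level. -/
def Level.size : Level → ℕ
  | none => 0
  | some p => p.1 + p.2

/-- The numbers which occur are words. -/
def BigW2 (P : Alg) (c d : Level) (a b n W' : ℕ) : Prop :=
  1 ≤ n ∧ c.Valid ∧ d.Valid ∧ 0 < b ∧ a ≤ b ∧ 256 ≤ noise a b n ∧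
    8 * (P.W n + P.pre.mx + P.qry.mx + c.size + d.size + a + b + 300) * (n + 1) *
      (dL a b n + 1) ≤ W'

/-- The random words of the copies. -/
def Coins2 (P : Alg) (a b n : ℕ) (ω' : ℕ → ℕ → ℕ) (ω : ℕ → ℕ → ℕ → ℕ) : Prop :=
  (∀ i j, ω' i j < 2 ^ bits n) ∧
    ∀ idx < dL a b n, ∀ i < P.W n, ∀ j < P.W n,
      ω' (2 * i) (j * dL a b n + idx) = ω idx i j

/-- PIECE PRE2 (as `P_PRE`, with the mask on the matrix). `c.den n ≤ n` for valid `c`, `1 ≤ n`. -/
def P_PRE2 : Prop :=
  ∀ (P : Alg) (c d : Level) (a b n W' : ℕ) (ω' : ℕ → ℕ → ℕ) (ω : ℕ → ℕ → ℕ → ℕ)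
    (M : Fin n → Fin n → Bool) (μ : ℕ → Mem) (t : ℕ → ℕ), BigW2 P c d a b n W' →
    Coins2 P a b n ω' ω →
    (∀ blk < dB a b n, ∀ j < cK n,
      Runs (P.W n) (ω (blk * cK n + j)) P.pre (init (noisyM c a b M ω' blk j))
        (μ (blk * cK n + j)) (t (blk * cK n + j))) →
    Tr W' ω' (red2Pre P c d a b) (init M)
      (2000 * (dL a b n + 1) * (n + 1) ^ 2 + 10 * ∑ idx ∈ Finset.range (dL a b n), t idx)
      (fun m' => Regs2 d a b n 0 m' ∧ ∀ idx < dL a b n, Inst (dL a b n) idx m' (μ idx))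

/-- PIECE QRY2 (as `P_QRY`, with noise in the vectors; the register `10` counts the queries). -/
def P_QRY2 : Prop :=
  ∀ (P : Alg) (c d : Level) (a b n W' : ℕ) (i : Fin n) (ω' : ℕ → ℕ → ℕ) (ω : ℕ → ℕ → ℕ → ℕ)
    (v : Fin n → Fin n → Bool) (m : Mem) (μ μ' : ℕ → Mem) (t : ℕ → ℕ), BigW2 P c d a b n W' →
    Coins2 P a b n ω' ω → Regs2 d a b n i m → (∀ r i j, m.a r i j < W') →
    (∀ idx < dL a b n, Inst (dL a b n) idx m (μ idx)) →
    (∀ blk < dB a b n, ∀ j < cK n,
      Runs (P.W n) (ω (blk * cK n + j)) P.qry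
        ((μ (blk * cK n + j)).load (noisyV d a b v ω' blk j i))
        (μ' (blk * cK n + j)) (t (blk * cK n + j))) →
    Tr W' ω' (red2Qry P d) (m.load (v i))
      (2000 * (dL a b n + 1) * (n + 1) + 10 * ∑ idx ∈ Finset.range (dL a b n), t idx)
      (fun m' => Regs2 d a b n (i + 1) m' ∧
        (∀ idx < dL a b n, Inst (dL a b n) idx m' (μ' idx)) ∧
        ∀ r : Fin n, (m'.a 2 0 r ≠ 0 ↔ ∃ blk < dB a b n,
          cK n < 2 * ((Finset.range (cK n)).filter
            (fun j => (μ' (blk * cK n + j)).a 2 0 r ≠ 0)).card))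

/-! ## Upper bounds -/

/-- PIECE ONES. If `c + d < 1` then with probability tending to `1` ALL the answers are the all-one
vector: for given `r`, `i` the entries `M' r k` and `v' i k` (with noise) are both `1` with
probability at least `1 / (S S')`, independently for the `n` places `k`, `S S' ≤ n ^ (c + d)`; union
bound over the `n ^ 2` pairs `r`, `i`. Algorithm: `pre` writes `1` to the `n` entries of the answer,
`qry` is `.skip`. -/
def P_ONES : Prop :=
  ∀ (c d : Level) (τ : ℝ), c.Valid → d.Valid → c.rate + d.rate < 1 → 2 < τ → Fast2 c d τ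

/-- PIECE UPV. Noise in the vectors. Algorithm: `pre` makes for every row `r` the list of the places
of the ones of the row `r` of the matrix, in an array; a query reads for every row `r` the entries
of the vector at the first `3 * S * bits n` places of the list (`S = noise a b n`, computed as in
`redPre` with `logP`) until a one is found. For given `r` and `i`, if the list is longer than
`3 * S * bits n`, then no one is found with probability at most
`(1 - 1 / S) ^ (3 * S * bits n) ≤ exp (- 3 bits n)` (over the noise `R'` in the vector `i`; an entry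
of a vector with noise is `1` with probability `≥ 1 / S` since `S ≥ 2` for large `n`); union bound
over the `n ^ 2` pairs `r`, `i`. The noise of the matrix and the tape play no role. Time
`O (n ^ 2 S bits n)`. -/
def P_UPV : Prop :=
  ∀ (c : Level) (a b : ℕ) (τ : ℝ), c.Valid → 0 < a → a ≤ b → 2 + (a : ℝ) / b < τ →
    Fast2 c (some (a, b)) τ

/-- PIECE ASYM2 (as `P_ASYM`). Here `(a, b)` is the smaller one of the two exponents; the last
condition is needed for two noise levels with `c + d > 1` only, it is trivial without noise. -/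
def P_ASYM2 : Prop :=
  ∀ (P : Alg) (c d : Level) (a b : ℕ) (τ : ℝ), c.Valid → d.Valid → 0 < a → a ≤ b →
    τ < 2 + (a : ℝ) / b → 1 < c.rate + d.rate →
    ∃ τ' : ℝ, τ' < 3 ∧ ∀ᶠ n : ℕ in Filter.atTop,
      BigW2 P c d a b n (2 ^ ((P.wd + 40) * bits n)) ∧
      (n : ℝ) ^ 2 * (dB a b n : ℝ) * (24 / 25 : ℝ) ^ cK n ≤ 1 / 3 ∧
      ((4000 * (dL a b n + 1) * (n + 1) ^ 2 + 10 * (dL a b n * ⌊(n : ℝ) ^ τ⌋₊) : ℕ) : ℝ) ≤
        (n : ℝ) ^ τ' ∧
      (n : ℝ) * ((c.num : ℝ) / c.den n * ((d.num : ℝ) / d.den n)) ≤ 1 / 128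

end Pool.Agent.W2helper22.SM
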