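import Pool.Agent.W2helper22.SM.Inj

set_option autoImplicit false

/-! # Elementary facts on probabilities in finite uniform spaces; piece UB -/

namespace Pool.Agent.W2helper22.SM

open Finset

section Basic

variable {Ω : Type} [Finite Ω]

theorem prob_nonneg (P : Ω → Prop) : 0 ≤ prob P := by unfold prob; positivity

theorem prob_mono {P Q : Ω → Prop} (h : ∀ ω, P ω → Q ω) : prob P ≤ prob Q := by
  unfold prob
  gcongr
  exact Nat.card_le_card_of_injective (fun x : {ω // P ω} => (⟨x.1, h _ x.2⟩ : {ω // Q ω}))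
    (fun a b hab => by
      simp only [Subtype.mk.injEq] at hab
      exact Subtype.ext hab)

theorem prob_le_one (P : Ω → Prop) : prob P ≤ 1 := by
  unfold prob
  apply div_le_one_of_le₀ _ (by positivity)
  exact_mod_cast Nat.card_le_card_of_injective (fun x : {ω // P ω} => x.1)
    Subtype.val_injective

theorem prob_true [Nonempty Ω] : prob (fun _ : Ω => True) = 1 := by
  unfold prob
  have h1 : Nat.card {ω : Ω // True} = Nat.card Ω :=
    Nat.card_congr (Equiv.subtypeUnivEquiv (fun _ => trivial))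
  rw [h1, div_self]
  have : 0 < Nat.card Ω := Nat.card_pos
  positivity

theorem prob_or (P Q : Ω → Prop) : prob (fun ω => P ω ∨ Q ω) ≤ prob P + prob Q := by
  classical
  have := Fintype.ofFinite Ω
  unfold prob
  rw [← add_div]
  gcongr
  rw [Nat.card_eq_fintype_card, Nat.card_eq_fintype_card, Nat.card_eq_fintype_card]
  exact_mod_cast Fintype.card_subtype_or P Q

theorem prob_not [Nonempty Ω] (P : Ω → Prop) : prob (fun ω => ¬ P ω) = 1 - prob P := by
  classical
  have := Fintype.ofFinite Ω
  unfold prob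
  have hpos : (0 : ℝ) < Nat.card Ω := by
    have : 0 < Nat.card Ω := Nat.card_pos
    exact_mod_cast this
  rw [Nat.card_eq_fintype_card, Nat.card_eq_fintype_card, Nat.card_eq_fintype_card] at *
  rw [Fintype.card_subtype_compl]
  have hle : Fintype.card {ω // P ω} ≤ Fintype.card Ω := Fintype.card_subtype_le P
  rw [Nat.cast_sub hle]
  field_simp

theorem prob_exists {ι : Type} (s : Finset ι) (P : ι → Ω → Prop) :
    prob (fun ω => ∃ i ∈ s, P i ω) ≤ ∑ i ∈ s, prob (P i) := by
  classical
  induction s using Finset.induction_on with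
  | empty =>
    simp only [notMem_empty, false_and, exists_false, sum_empty]
    unfold prob
    simp
  | insert a s ha ih =>
    rw [sum_insert ha]
    refine (prob_mono (Q := fun ω => P a ω ∨ ∃ i ∈ s, P i ω) ?_).trans ((prob_or _ _).trans ?_)
    · rintro ω ⟨i, hi, h⟩
      rcases mem_insert.1 hi with rfl | hi
      · exact Or.inl h
      · exact Or.inr ⟨i, hi, h⟩
    · gcongr

end Basic

theorem prob_equiv {α β : Type} (e : α ≃ β) (Q : β → Prop) :
    prob (fun x => Q (e x)) = prob Q := by
  unfold prob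
  rw [Nat.card_congr e, Nat.card_congr (e.subtypeEquiv (q := Q) (fun a => Iff.rfl))]

/-- The probability that a given entry is noisy. -/
theorem prob_entry (n S : ℕ) (r c : Fin n) (hS : 0 < S) :
    prob (fun R : Fin n → Fin n → Fin S => (R r c : ℕ) = 0) = 1 / S := by
  classical
  have : NeZero S := ⟨by omega⟩
  have h1 := prob_equiv (Equiv.curry (Fin n) (Fin n) (Fin S)).symm
    (fun f => (f (r, c) : ℕ) = 0)
  have h2 := prob_comp_inj (ι := Unit) (κ := Fin n × Fin n) (X := Fin S) (fun _ => (r, c))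
    (fun g => (g () : ℕ) = 0) (fun _ _ _ => rfl)
  have h3 : prob (fun g : Unit → Fin S => (g () : ℕ) = 0) = 1 / S := by
    have h4 := prob_equiv (Equiv.funUnique Unit (Fin S)) (fun x => (x : ℕ) = 0)
    have h5 : prob (fun x : Fin S => (x : ℕ) = 0) = 1 / S := by
      unfold prob
      have : Nat.card {x : Fin S // (x : ℕ) = 0} = 1 := by
        rw [Nat.card_eq_one_iff_unique]
        refine ⟨⟨fun a b => ?_⟩, ⟨⟨0, rfl⟩⟩⟩
        apply Subtype.ext
        apply Fin.ext
        rw [a.2, b.2]
      rw [this, Nat.card_fin]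
      simp
    rw [← h5, ← h4]
    rfl
  rw [← h3, ← h2, ← h1]
  rfl

theorem ub_aux (n S : ℕ) (r : Fin n) (C : Finset (Fin n)) (hS : 0 < S) (hC : 64 * C.card ≤ S) :
    prob (fun R : Fin n → Fin n → Fin S => ∃ c ∈ C, (R r c : ℕ) = 0) ≤ 1 / 64 := by
  have h1 : prob (fun R : Fin n → Fin n → Fin S => ∃ c ∈ C, (R r c : ℕ) = 0) ≤
      ∑ c ∈ C, prob (fun R : Fin n → Fin n → Fin S => (R r c : ℕ) = 0) :=
    prob_exists C (fun c (R : Fin n → Fin n → Fin S) => (R r c : ℕ) = 0)
  have h2 : ∑ c ∈ C, prob (fun R : Fin n → Fin n → Fin S => (R r c : ℕ) = 0) =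
      ∑ c ∈ C, (1 : ℝ) / S := Finset.sum_congr rfl (fun c _ => prob_entry n S r c hS)
  refine h1.trans ?_
  rw [h2, sum_const, nsmul_eq_mul]
  have hS' : (0 : ℝ) < S := by exact_mod_cast hS
  rw [mul_one_div, div_le_div_iff₀ hS' (by norm_num)]
  have h3 : ((64 * C.card : ℕ) : ℝ) ≤ (S : ℝ) := by exact_mod_cast hC
  push_cast at h3
  linarith

theorem ub_ok : P_UB := fun n S r C hS hC => ub_aux n S r C hS hC

end Pool.Agent.W2helper22.SM
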