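import Pool.Agent.W2helper22.SM.ModelN

set_option autoImplicit false

/-!
# Rules for the running time and the result of programs
-/

namespace Pool.Agent.W2helper22.SM

section Mem

@[simp] theorem setV_a (m : Mem) (x n : ℕ) : (m.setV x n).a = m.a := rfl

theorem setV_v (m : Mem) (x n y : ℕ) : (m.setV x n).v y = if y = x then n else m.v y := rfl

@[simp] theorem setV_same (m : Mem) (x n : ℕ) : (m.setV x n).v x = n := by simp [setV_v]

@[simp] theorem setA_v (m : Mem) (r i j n : ℕ) : (m.setA r i j n).v = m.v := rfl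

theorem setA_a (m : Mem) (r i j n r' i' j' : ℕ) :
    (m.setA r i j n).a r' i' j' = if r' = r ∧ i' = i ∧ j' = j then n else m.a r' i' j' := rfl

@[simp] theorem setA_same (m : Mem) (r i j n : ℕ) : (m.setA r i j n).a r i j = n := by
  simp [setA_a]

end Mem

/-- Programs are deterministic (for given random words). -/
theorem Runs.det {W : ℕ} {ω : ℕ → ℕ → ℕ} {p : Prog} {m m₁ m₂ : Mem} {c₁ c₂ : ℕ}
    (h₁ : Runs W ω p m m₁ c₁) (h₂ : Runs W ω p m m₂ c₂) : m₁ = m₂ ∧ c₁ = c₂ := by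
  induction h₁ generalizing m₂ c₂ with
  | skip m => cases h₂; exact ⟨rfl, rfl⟩
  | assign x e m _ => cases h₂; exact ⟨rfl, rfl⟩
  | store r i j e m _ _ _ => cases h₂; exact ⟨rfl, rfl⟩
  | seq _ _ ih₁ ih₂ =>
    cases h₂ with
    | seq a b =>
      obtain ⟨rfl, rfl⟩ := ih₁ a
      obtain ⟨rfl, rfl⟩ := ih₂ b
      exact ⟨rfl, rfl⟩
  | ite_true _ ht _ ih =>
    cases h₂ with
    | ite_true _ _ a => obtain ⟨rfl, rfl⟩ := ih a; exact ⟨rfl, rfl⟩
    | ite_false _ hf _ => exact absurd ht hf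
  | ite_false _ hf _ ih =>
    cases h₂ with
    | ite_true _ ht _ => exact absurd ht hf
    | ite_false _ _ a => obtain ⟨rfl, rfl⟩ := ih a; exact ⟨rfl, rfl⟩
  | loop_done _ hf =>
    cases h₂ with
    | loop_done _ _ => exact ⟨rfl, rfl⟩
    | loop_step _ ht _ _ => exact absurd ht hf
  | loop_step _ ht _ _ ih₁ ih₂ =>
    cases h₂ with
    | loop_done _ hf => exact absurd ht hf
    | loop_step _ _ a b =>
      obtain ⟨rfl, rfl⟩ := ih₁ a
      obtain ⟨rfl, rfl⟩ := ih₂ b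
      exact ⟨rfl, rfl⟩

/-- `Tr W ω p m T Q`: the program `p` started in `m` stops within time `T` in a memory with `Q`. -/
def Tr (W : ℕ) (ω : ℕ → ℕ → ℕ) (p : Prog) (m : Mem) (T : ℕ) (Q : Mem → Prop) : Prop :=
  ∃ m' c, Runs W ω p m m' c ∧ c ≤ T ∧ Q m'

variable {W : ℕ} {ω : ℕ → ℕ → ℕ}

theorem Tr.le {p : Prog} {m : Mem} {T T' : ℕ} {Q : Mem → Prop} (h : Tr W ω p m T Q)
    (hT : T ≤ T') : Tr W ω p m T' Q := by
  obtain ⟨m', c, hr, hc, hq⟩ := h
  exact ⟨m', c, hr, hc.trans hT, hq⟩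

theorem Tr.mono {p : Prog} {m : Mem} {T : ℕ} {Q Q' : Mem → Prop} (h : Tr W ω p m T Q)
    (hQ : ∀ m', Q m' → Q' m') : Tr W ω p m T Q' := by
  obtain ⟨m', c, hr, hc, hq⟩ := h
  exact ⟨m', c, hr, hc, hQ _ hq⟩

theorem Tr.skip {m : Mem} {Q : Mem → Prop} (h : Q m) : Tr W ω .skip m 1 Q :=
  ⟨m, 1, .skip m, le_rfl, h⟩

theorem Tr.assign {x : ℕ} {e : Expr} {m : Mem} {Q : Mem → Prop} (he : e.ok W ω m)
    (h : Q (m.setV x (e.eval ω m))) : Tr W ω (.assign x e) m (e.cost + 1) Q :=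
  ⟨_, _, .assign x e m he, le_rfl, h⟩

theorem Tr.store {r : ℕ} {i j e : Expr} {m : Mem} {Q : Mem → Prop} (hi : i.ok W ω m)
    (hj : j.ok W ω m) (he : e.ok W ω m)
    (h : Q (m.setA r (i.eval ω m) (j.eval ω m) (e.eval ω m))) :
    Tr W ω (.store r i j e) m (i.cost + j.cost + e.cost + 1) Q :=
  ⟨_, _, .store r i j e m hi hj he, le_rfl, h⟩

theorem Tr.seq {p q : Prog} {m : Mem} {T₁ T₂ : ℕ} {Q : Mem → Prop}
    (h : Tr W ω p m T₁ (fun m' => Tr W ω q m' T₂ Q)) : Tr W ω (.seq p q) m (T₁ + T₂) Q := by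
  obtain ⟨m', c, hr, hc, m'', c', hr', hc', hq⟩ := h
  exact ⟨m'', c + c', .seq hr hr', by omega, hq⟩

theorem Tr.ite {t : Test} {p q : Prog} {m : Mem} {T : ℕ} {Q : Mem → Prop} (ht : t.ok W ω m)
    (h1 : t.holds ω m → Tr W ω p m T Q) (h2 : ¬ t.holds ω m → Tr W ω q m T Q) :
    Tr W ω (.ite t p q) m (t.cost + T) Q := by
  by_cases h : t.holds ω m
  · obtain ⟨m', c, hr, hc, hq⟩ := h1 h
    exact ⟨m', _, .ite_true ht h hr, by omega, hq⟩
  · obtain ⟨m', c, hr, hc, hq⟩ := h2 h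
    exact ⟨m', _, .ite_false ht h hr, by omega, hq⟩

/-- The loop rule, with an invariant and a number of iterations which is known in advance. -/
theorem Tr.loop {t : Test} {p : Prog} (I : ℕ → Mem → Prop) (T : ℕ → ℕ) (N : ℕ)
    (ht : ∀ k ≤ N, ∀ m, I k m → t.ok W ω m ∧ (t.holds ω m ↔ k < N))
    (hp : ∀ k < N, ∀ m, I k m → Tr W ω p m (T k) (I (k + 1))) :
    ∀ k ≤ N, ∀ m, I k m →
      Tr W ω (.loop t p) m (t.cost + ∑ i ∈ Finset.Ico k N, (t.cost + T i)) (I N) := by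
  intro k hk
  induction h : N - k generalizing k with
  | zero =>
    intro m hm
    have hkN : k = N := by omega
    subst hkN
    obtain ⟨h1, h2⟩ := ht k le_rfl m hm
    exact ⟨m, _, .loop_done h1 (by rw [h2]; omega), by simp, hm⟩
  | succ d ih =>
    intro m hm
    have hkN : k < N := by omega
    obtain ⟨h1, h2⟩ := ht k hk m hm
    obtain ⟨m', c, hr, hc, hq⟩ := hp k hkN m hm
    obtain ⟨m'', c', hr', hc', hq'⟩ := ih (k + 1) (by omega) (by omega) m' hq
    refine ⟨m'', _, .loop_step h1 (h2.2 hkN) hr hr', ?_, hq'⟩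
    rw [← Finset.add_sum_Ioo_eq_sum_Ico hkN] at *
    have : ∑ i ∈ Finset.Ioo k N, (t.cost + T i) = ∑ i ∈ Finset.Ico (k + 1) N, (t.cost + T i) := by
      congr 1
    omega

/-- `for x from 0 to e - 1 do p`. -/
def forR (x : ℕ) (e : Expr) (p : Prog) : Prog :=
  .seq (.assign x (.lit 0))
    (.loop (.lt (.reg x) e) (.seq p (.assign x (.bin .add (.reg x) (.lit 1)))))

/-- The rule for `for` loops: `I k m` is the invariant before the step `k`; the value of the
register `x` is added by the rule. -/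
theorem Tr.forR {x : ℕ} {e : Expr} {p : Prog} {m : Mem} {Q : Mem → Prop} (I : ℕ → Mem → Prop)
    (T : ℕ → ℕ) (N : ℕ) (hNW : N < W)
    (h0 : I 0 (m.setV x 0))
    (he : ∀ k ≤ N, ∀ m, I k m → m.v x = k → e.ok W ω m ∧ e.eval ω m = N)
    (hp : ∀ k < N, ∀ m, I k m → m.v x = k →
      Tr W ω p m (T k) (fun m' => m'.v x = k ∧ I (k + 1) (m'.setV x (k + 1))))
    (hQ : ∀ m', I N m' → m'.v x = N → Q m') :
    Tr W ω (forR x e p) m (e.cost + 4 + ∑ k ∈ Finset.range N, (e.cost + 6 + T k)) Q := by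
  have hW : 1 < W ∨ N = 0 := by omega
  have hloop := Tr.loop (W := W) (ω := ω) (t := .lt (.reg x) e)
    (p := .seq p (.assign x (.bin .add (.reg x) (.lit 1))))
    (fun k m => I k m ∧ m.v x = k) (fun k => T k + 4) N
    (by
      rintro k hk m ⟨hm, hx⟩
      obtain ⟨h1, h2⟩ := he k hk m hm hx
      refine ⟨⟨?_, h1⟩, ?_⟩
      · show m.v x < W
        omega
      · show m.v x < e.eval ω m ↔ _
        rw [h2, hx])
    (by
      rintro k hk m ⟨hm, hx⟩
      refine Tr.seq (T₂ := 4) ((hp k hk m hm hx).mono ?_)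
      rintro m' ⟨hx', hm'⟩
      refine Tr.assign (e := .bin .add (.reg x) (.lit 1)) ⟨?_, ?_, ?_⟩ ?_
      · show m'.v x < W
        omega
      · show 1 < W
        omega
      · show m'.v x + 1 < W
        omega
      · have : (Expr.bin .add (.reg x) (.lit 1)).eval ω m' = k + 1 := by
          simp [Expr.eval, Op.fn, hx']
        rw [this]
        exact ⟨hm', by simp⟩)
    0 (by omega) (m.setV x 0) ⟨h0, by simp⟩
  have hall : Tr W ω (SM.forR x e p) m
      (2 + (e.cost + 2 + ∑ i ∈ Finset.Ico 0 N, (e.cost + 2 + (T i + 4)))) Q := by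
    refine Tr.seq (T₁ := 2) (Tr.assign (e := .lit 0) (show 0 < W by omega) ?_)
    refine (hloop.mono ?_).le ?_
    · rintro m' ⟨h1, h2⟩
      exact hQ m' h1 h2
    · simp only [Test.cost, Expr.cost]
      have : ∀ i, 1 + e.cost + 1 + (T i + 4) = e.cost + 2 + (T i + 4) := by intro i; omega
      simp only [this]
      omega
  refine hall.le ?_
  rw [Finset.range_eq_Ico]
  have : ∀ i, e.cost + 2 + (T i + 4) = e.cost + 6 + T i := by intro i; omega
  simp only [this]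
  omega

end Pool.Agent.W2helper22.SM
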