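import Pool.Agent.W2helper22.SM.Stm

set_option autoImplicit false

/-! # Project SM: the last pieces (upper bound, asymptotics, averaging) -/

namespace Pool.Agent.W2helper22.SM

/-- The naive algorithm. -/
def naive (a b : ℕ) : Alg := ⟨naivePre a b, naiveQry, a + b + 40⟩

/-- PIECE UPPER. The witness is `naive a b`. Proof: `naivePre a b` (with `P_LOG`) leads from
`init M'` to a memory with `Keep M' (budget a b n)`, in time `≤ 200 (n + 1)`; all numbers are words
since `(naive a b).W n = 2 ^ ((a + b + 40) * bits n)`, `n < 2 ^ bits n` and `noise a b n ≤ n`; then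
by `P_NQ` there is an execution with all `n` queries, in total time
`≤ 200 (n + 1) + n (100 (n + 1) + 50 * budget a b n)`, for EVERY matrix `M'` (so `Halts`), and
`budget a b n ≤ C n ^ (1 + a / b) * bits n`, so the time is `≤ n ^ τ` for large `n`. If
`M' = flip M R` has no zero square of side `3 * noise a b n * bits n` (probability `≥ 2 / 3` over
`R` by `P_NOISE`; `2 ≤ noise a b n` for large `n`; the tape plays no role) then all the sums of
probes are within the budget by `P_ZERO`, and all answers are right. -/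
def P_UPPER : Prop :=
  P_LOG → P_NQ → P_ZERO → P_NOISE →
  ∀ (a b : ℕ) (τ : ℝ), 0 < a → a ≤ b → 2 + (a : ℝ) / b < τ → SmoothedFast a b τ

/-- PIECE ASYM. Recall `cK n = 100 bits n + 1`, `cL = cB * cK`, `cB = n / (noise / 64) + 1`,
`noise a b n = 2 ^ (a * log₂ n / b) ≥ n ^ (a / b) / 4` (roughly), `n < 2 ^ bits n ≤ 2 n`. So
`cB ≤ C n ^ (1 - a / b)`, `cL ≤ C n ^ (1 - a / b) bits n`. -/
def P_ASYM : Prop :=
  ∀ (P : Alg) (a b : ℕ) (τ : ℝ), 0 < a → a ≤ b → τ < 2 + (a : ℝ) / b →
    ∃ τ' : ℝ, τ' < 3 ∧ ∀ᶠ n : ℕ in Filter.atTop,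
      BigW P a b n (2 ^ ((P.wd + 40) * bits n)) ∧
      (n : ℝ) * (cB a b n : ℝ) * (24 / 25 : ℝ) ^ cK n ≤ 1 / 3 ∧
      ((2000 * (cL a b n + 1) * (n + 1) ^ 2 + 10 * (cL a b n * ⌊(n : ℝ) ^ τ⌋₊) : ℕ) : ℝ) ≤
        (n : ℝ) ^ τ'

/-- PIECE AVG. An algorithm for the worst case solves the smoothed problem: the probability of
success over `(R, ω)` is the average over `R` of the probability over `ω` for the matrix
`flip M R`, which is `≥ 2 / 3`. -/
def P_AVG : Prop :=
  ∀ (A : Alg) (n S : ℕ) (T : ℝ), 0 < S → WorstCase A n T → Smoothed A n S T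

end Pool.Agent.W2helper22.SM
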