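import Pool.Agent.W2helper22.SM.LowProb
import Pool.Agent.W2helper22.SM.Stm2

set_option autoImplicit false

/-! # The reduction from OMv to smoothed OMv is correct with probability `≥ 2 / 3` -/

namespace Pool.Agent.W2helper22.SM

open Finset

theorem word_lt {W β : ℕ} (ω : Tape W β) (i j : ℕ) : ω.word i j < 2 ^ β := by
  unfold Tape.word
  split_ifs with h
  · exact (ω ⟨i, h.1⟩ ⟨j, h.2⟩).2
  · positivity

/-- The places on the tape of the words of the copy `j` in the block `blk`. -/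
def place (a b n W blk j : ℕ) (x : Idx n W) : ℕ × ℕ :=
  match x with
  | Sum.inl p => (2 * (p.1 : ℕ) + 1, (p.2 : ℕ) * cK n + j)
  | Sum.inr p => (2 * (p.1 : ℕ), (p.2 : ℕ) * cL a b n + (blk * cK n + j))

theorem uniq {K q q' j j' : ℕ} (hj : j < K) (hj' : j' < K) (h : q * K + j = q' * K + j') :
    q = q' ∧ j = j' := by
  have hK : 0 < K := by omega
  have h1 : (q * K + j) / K = q := by
    rw [Nat.mul_comm, Nat.mul_add_div hK, Nat.div_eq_of_lt hj, Nat.add_zero]
  have h2 : (q' * K + j') / K = q' := by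
    rw [Nat.mul_comm, Nat.mul_add_div hK, Nat.div_eq_of_lt hj', Nat.add_zero]
  have h3 : q = q' := by rw [← h1, ← h2, h]
  subst h3
  exact ⟨rfl, by omega⟩

theorem blk_lt {a b n blk j : ℕ} (hblk : blk < cB a b n) (hj : j < cK n) :
    blk * cK n + j < cL a b n := by
  unfold cL
  calc blk * cK n + j < blk * cK n + cK n := by omega
    _ = (blk + 1) * cK n := by ring
    _ ≤ cB a b n * cK n := Nat.mul_le_mul_right _ hblk

theorem place_inj {a b n W blk : ℕ} (hblk : blk < cB a b n) {j j' : ℕ} (hj : j < cK n)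
    (hj' : j' < cK n) {x x' : Idx n W} (h : place a b n W blk j x = place a b n W blk j' x') :
    j = j' ∧ x = x' := by
  rcases x with ⟨r, c⟩ | ⟨i, k⟩ <;> rcases x' with ⟨r', c'⟩ | ⟨i', k'⟩ <;>
    simp only [place, Prod.mk.injEq] at h
  · obtain ⟨h1, h2⟩ := h
    obtain ⟨h3, h4⟩ := uniq hj hj' h2
    refine ⟨h4, ?_⟩
    have hr : r = r' := Fin.ext (by omega)
    have hc : c = c' := Fin.ext h3
    rw [hr, hc]
  · omega
  · omega
  · obtain ⟨h1, h2⟩ := h
    obtain ⟨h3, h4⟩ := uniq (blk_lt hblk hj) (blk_lt hblk hj') h2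
    refine ⟨by omega, ?_⟩
    have hr : i = i' := Fin.ext (by omega)
    have hc : k = k' := Fin.ext h3
    rw [hr, hc]

theorem place_lt {P : Alg} {a b n W' blk j : ℕ} (hW : BigW P a b n W') (hblk : blk < cB a b n)
    (hj : j < cK n) (x : Idx n (P.W n)) :
    (place a b n (P.W n) blk j x).1 < W' ∧ (place a b n (P.W n) blk j x).2 < W' := by
  have hbig := hW.2.2.2.2
  have hL := blk_lt hblk hj
  have hKL : cK n ≤ cL a b n := by
    unfold cL
    exact Nat.le_mul_of_pos_left _ (by omega)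
  have h1 : (n + 1) * (cL a b n + 1) ≤ 8 * (P.W n + P.pre.mx + P.qry.mx + a + b + 200) * (n + 1) *
      (cL a b n + 1) := by
    rw [Nat.mul_assoc]
    exact Nat.le_mul_of_pos_left _ (by omega)
  have h2 : 8 * (P.W n + 1) * (cL a b n + 1) ≤
      8 * (P.W n + P.pre.mx + P.qry.mx + a + b + 200) * (n + 1) * (cL a b n + 1) := by
    refine Nat.mul_le_mul_right _ ?_
    calc 8 * (P.W n + 1) = 8 * (P.W n + 1) * 1 := by ring
      _ ≤ 8 * (P.W n + P.pre.mx + P.qry.mx + a + b + 200) * (n + 1) :=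
        Nat.mul_le_mul (by omega) (by omega)
  have h3 : 8 * (n + 1) ≤
      8 * (P.W n + P.pre.mx + P.qry.mx + a + b + 200) * (n + 1) * (cL a b n + 1) := by
    calc 8 * (n + 1) = 8 * (n + 1) * 1 := by ring
      _ ≤ 8 * (P.W n + P.pre.mx + P.qry.mx + a + b + 200) * (n + 1) * (cL a b n + 1) :=
        Nat.mul_le_mul (Nat.mul_le_mul (by omega) le_rfl) (by omega)
  rcases x with ⟨r, c⟩ | ⟨i, k⟩
  · have hr := r.2
    have hc := c.2
    refine ⟨?_, ?_⟩
    · show 2 * (r : ℕ) + 1 < W'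
      omega
    · show (c : ℕ) * cK n + j < W'
      calc (c : ℕ) * cK n + j < (c : ℕ) * cK n + cK n := by omega
        _ = ((c : ℕ) + 1) * cK n := by ring
        _ ≤ (n + 1) * (cL a b n + 1) := Nat.mul_le_mul (by omega) (by omega)
        _ ≤ W' := h1.trans hbig
  · have hi := i.2
    have hk := k.2
    refine ⟨?_, ?_⟩
    · show 2 * (i : ℕ) < W'
      have : 8 * (P.W n + 1) * 1 ≤ 8 * (P.W n + 1) * (cL a b n + 1) :=
        Nat.mul_le_mul_left _ (by omega)
      omega
    · show (k : ℕ) * cL a b n + (blk * cK n + j) < W'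
      calc (k : ℕ) * cL a b n + (blk * cK n + j) < (k : ℕ) * cL a b n + cL a b n := by omega
        _ = ((k : ℕ) + 1) * cL a b n := by ring
        _ ≤ (8 * (P.W n + 1)) * (cL a b n + 1) := Nat.mul_le_mul (by omega) (by omega)
        _ ≤ W' := h2.trans hbig

/-- The words of the copy `j` in the block `blk`. -/
def cpy (P : Alg) (a b : ℕ) {n W' : ℕ} (ω' : Tape W' (bits n)) (blk j : ℕ) :
    Idx n (P.W n) → Fin (2 ^ bits n) :=
  fun x => ⟨ω'.word (place a b n (P.W n) blk j x).1 (place a b n (P.W n) blk j x).2,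
    word_lt _ _ _⟩

theorem noisy_eq (P : Alg) (a b : ℕ) {n W' : ℕ} (M : Fin n → Fin n → Bool)
    (ω' : Tape W' (bits n)) (blk j : ℕ) :
    noisy a b M ω'.word j = flip M (nzMat a b (cpy P a b ω' blk j)) := by
  funext r c
  rfl

/-- The coins of the copies. -/
def coin (P : Alg) (a b : ℕ) {n W' : ℕ} (ω' : Tape W' (bits n)) (idx : ℕ) : ℕ → ℕ → ℕ :=
  (cnTape (cpy P a b ω' (idx / cK n) (idx % cK n))).word

theorem coin_eq (P : Alg) (a b : ℕ) {n W' : ℕ} (ω' : Tape W' (bits n)) (blk j : ℕ)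
    (hj : j < cK n) :
    coin P a b ω' (blk * cK n + j) = (cnTape (cpy P a b ω' blk j)).word := by
  have hK := cK_pos n
  have h1 : (blk * cK n + j) / cK n = blk := by
    rw [Nat.mul_comm, Nat.mul_add_div hK, Nat.div_eq_of_lt hj, Nat.add_zero]
  have h2 : (blk * cK n + j) % cK n = j := by
    rw [Nat.mul_comm, Nat.mul_add_mod, Nat.mod_eq_of_lt hj]
  unfold coin
  rw [h1, h2]

theorem coins_ok (P : Alg) (a b : ℕ) {n W' : ℕ} (ω' : Tape W' (bits n)) :
    Coins P a b n ω'.word (coin P a b ω') := by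
  refine ⟨fun i j => word_lt _ _ _, ?_⟩
  intro idx _ i hi j hj
  unfold coin Tape.word
  rw [dif_pos (⟨hi, hj⟩ : i < P.W n ∧ j < P.W n)]
  show _ = ω'.word (2 * i) (j * cL a b n + (idx / cK n * cK n + idx % cK n))
  rw [Nat.div_add_mod']
  rfl

/-- The probability that the majority of the copies errs. -/
theorem prob_row (hchern : P_CHERN) (P : Alg) (a b : ℕ) {n : ℕ} (M v : Fin n → Fin n → Bool)
    (T : ℝ) {W' : ℕ} (hW : BigW P a b n W') (hsm : Smoothed P n (noise a b n) T) (r : Fin n)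
    (blk : ℕ) (hblk : blk < cB a b n) :
    prob (fun ω' : Tape W' (bits n) => cK n ≤ 2 * Nat.card {j : Fin (cK n) //
      ¬ Good P a b M v r blk (cpy P a b ω' blk j)}) ≤ (24 / 25 : ℝ) ^ cK n := by
  classical
  let φ : Fin (cK n) × Idx n (P.W n) → Fin W' × Fin W' := fun p =>
    (⟨(place a b n (P.W n) blk p.1 p.2).1, (place_lt hW hblk p.1.2 p.2).1⟩,
      ⟨(place a b n (P.W n) blk p.1 p.2).2, (place_lt hW hblk p.1.2 p.2).2⟩)
  have hφ : Function.Injective φ := by
    rintro ⟨j, x⟩ ⟨j', x'⟩ h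
    simp only [φ, Prod.mk.injEq, Fin.mk.injEq] at h
    obtain ⟨h1, h2⟩ := place_inj hblk j.2 j'.2 (Prod.ext h.1 h.2)
    rw [h2, Fin.ext h1]
  have hcpy : ∀ (ω' : Tape W' (bits n)) (j : Fin (cK n)) (x : Idx n (P.W n)),
      cpy P a b ω' blk j x = ω' (φ (j, x)).1 (φ (j, x)).2 := by
    intro ω' j x
    apply Fin.ext
    show ω'.word _ _ = _
    unfold Tape.word
    rw [dif_pos (⟨(place_lt hW hblk j.2 x).1, (place_lt hW hblk j.2 x).2⟩ : _ ∧ _)]
  have e1 : prob (fun ω' : Tape W' (bits n) => cK n ≤ 2 * Nat.card {j : Fin (cK n) //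
      ¬ Good P a b M v r blk (cpy P a b ω' blk j)}) =
      prob (fun f : Fin W' × Fin W' → Fin (2 ^ bits n) => cK n ≤ 2 * Nat.card {j : Fin (cK n) //
        ¬ Good P a b M v r blk (fun x => f (φ (j, x)))}) := by
    rw [← prob_equiv (Equiv.curry (Fin W') (Fin W') (Fin (2 ^ bits n))).symm
      (fun f : Fin W' × Fin W' → Fin (2 ^ bits n) => cK n ≤ 2 * Nat.card {j : Fin (cK n) //
        ¬ Good P a b M v r blk (fun x => f (φ (j, x)))})]
    congr 1
    funext ω'
    have : ∀ j : Fin (cK n), cpy P a b ω' blk j =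
        fun x => (Equiv.curry (Fin W') (Fin W') (Fin (2 ^ bits n))).symm ω' (φ (j, x)) := by
      intro j
      funext x
      exact hcpy ω' j x
    simp only [this]
  have e2 : prob (fun f : Fin W' × Fin W' → Fin (2 ^ bits n) => cK n ≤ 2 * Nat.card
        {j : Fin (cK n) // ¬ Good P a b M v r blk (fun x => f (φ (j, x)))}) =
      prob (fun g : Fin (cK n) × Idx n (P.W n) → Fin (2 ^ bits n) => cK n ≤ 2 * Nat.card
        {j : Fin (cK n) // ¬ Good P a b M v r blk (fun x => g (j, x))}) := by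
    have hne : Nonempty (Fin (2 ^ bits n)) := ⟨⟨0, by positivity⟩⟩
    exact prob_comp_inj φ (fun g : Fin (cK n) × Idx n (P.W n) → Fin (2 ^ bits n) =>
      cK n ≤ 2 * Nat.card {j : Fin (cK n) // ¬ Good P a b M v r blk (fun x => g (j, x))}) hφ
  have e3 : prob (fun g : Fin (cK n) × Idx n (P.W n) → Fin (2 ^ bits n) => cK n ≤ 2 * Nat.card
        {j : Fin (cK n) // ¬ Good P a b M v r blk (fun x => g (j, x))}) =
      prob (fun g : Fin (cK n) → (Idx n (P.W n) → Fin (2 ^ bits n)) => cK n ≤ 2 * Nat.card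
        {j : Fin (cK n) // ¬ Good P a b M v r blk (g j)}) := by
    exact prob_equiv (Equiv.curry (Fin (cK n)) (Idx n (P.W n)) (Fin (2 ^ bits n)))
      (fun g : Fin (cK n) → (Idx n (P.W n) → Fin (2 ^ bits n)) => cK n ≤ 2 * Nat.card
        {j : Fin (cK n) // ¬ Good P a b M v r blk (g j)})
  rw [e1, e2, e3]
  have hne : Nonempty (Idx n (P.W n) → Fin (2 ^ bits n)) := ⟨fun _ => ⟨0, by positivity⟩⟩
  exact hchern (Idx n (P.W n) → Fin (2 ^ bits n)) (cK n)
    (fun y => ¬ Good P a b M v r blk y) (prob_bad P a b M v T hW.2.1 hW.2.2.1 hW.2.2.2.1 hsm r blk)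

theorem mask_union {a b n : ℕ} (M : Fin n → Fin n → Bool) (u : Fin n → Bool) (r : Fin n) :
    (∃ blk < cB a b n, bmv M (maskv a b u blk) r) ↔ bmv M u r := by
  constructor
  · rintro ⟨blk, _, c, h1, h2⟩
    simp only [maskv, Bool.and_eq_true] at h2
    exact ⟨c, h1, h2.1⟩
  · rintro ⟨c, h1, h2⟩
    refine ⟨(c : ℕ) / cs a b n, ?_, c, h1, ?_⟩
    · unfold cB
      have := Nat.div_le_div_right (c := cs a b n) c.2.le
      omega
    · simp [maskv, h2]

/-- The reduction. -/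
theorem red_worst (hlog : P_LOG) (hsim : P_SIM) (hpre : P_PRE) (hqry : P_QRY) (hchern : P_CHERN)
    (P : Alg) (a b n : ℕ) (T T' : ℝ) (hW : BigW P a b n ((red P a b).W n))
    (hsm : Smoothed P n (noise a b n) T)
    (hun : (n : ℝ) * (cB a b n : ℝ) * (24 / 25 : ℝ) ^ cK n ≤ 1 / 3)
    (hT : ((2000 * (cL a b n + 1) * (n + 1) ^ 2 + 10 * (cL a b n * ⌊T⌋₊) : ℕ) : ℝ) ≤ T') :
    WorstCase (red P a b) n T' := by
  classical
  intro M v
  have hex : ∀ ω' : Tape ((red P a b).W n) (bits n), ∀ blk < cB a b n, ∀ j < cK n,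
      ∃ m t, t ≤ ⌊T⌋₊ ∧ Exec (P.W n) (coin P a b ω' (blk * cK n + j)) P
        (noisy a b M ω'.word j) (fun i => maskv a b (v i) blk) (fun _ _ => True) n m t := by
    intro ω' blk hblk j hj
    rw [coin_eq P a b ω' blk j hj, noisy_eq P a b M ω' blk j]
    obtain ⟨m, t, he, ht⟩ := (hsm M (fun i => maskv a b (v i) blk)).1
      (nzMat a b (cpy P a b ω' blk j)) (cnTape (cpy P a b ω' blk j))
    exact ⟨m, t, Nat.le_floor ht, he⟩
  have hrun := fun ω' : Tape ((red P a b).W n) (bits n) =>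
    exec_red hlog hsim hpre hqry P a b n ((red P a b).W n) ω'.word (coin P a b ω') M v ⌊T⌋₊ hW
      (coins_ok P a b ω') (hex ω')
  refine ⟨?_, ?_⟩
  · intro ω'
    obtain ⟨m, t, he, ht⟩ := hrun ω'
    refine ⟨m, t, he.weaken (fun _ _ _ => trivial), le_trans ?_ hT⟩
    exact_mod_cast ht
  · let Bad : Tape ((red P a b).W n) (bits n) → Prop := fun ω' =>
      ∃ p ∈ (univ : Finset (Fin n)) ×ˢ range (cB a b n), cK n ≤ 2 * Nat.card {j : Fin (cK n) //
        ¬ Good P a b M v p.1 p.2 (cpy P a b ω' p.2 j)}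
    have hbad : prob Bad ≤ 1 / 3 := by
      refine le_trans (prob_exists _ _) ?_
      refine le_trans (Finset.sum_le_sum (g := fun _ => (24 / 25 : ℝ) ^ cK n) ?_) ?_
      · rintro ⟨r, blk⟩ hp
        have hblk : blk < cB a b n := by
          simpa using (mem_product.1 hp).2
        exact prob_row hchern P a b M v T hW hsm r blk hblk
      · rw [sum_const, card_product, card_univ, Fintype.card_fin, card_range, nsmul_eq_mul]
        push_cast
        exact hun
    have hne : Nonempty (Tape ((red P a b).W n) (bits n)) := ⟨fun _ _ => ⟨0, by positivity⟩⟩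
    have h1 : (2 : ℝ) / 3 ≤ prob (fun ω' => ¬ Bad ω') := by
      rw [prob_not]
      linarith
    refine h1.trans (prob_mono ?_)
    intro ω' hgood
    obtain ⟨m, t, he, ht⟩ := hrun ω'
    refine ⟨m, t, he.weaken ?_, le_trans (by exact_mod_cast ht) hT⟩
    intro i m' hmaj r
    rw [hmaj r, ← mask_union (a := a) (b := b) M (v i) r]
    refine exists_congr (fun blk => and_congr_right (fun hblk => ?_))
    refine majority (fun j : Fin (cK n) => Good P a b M v r blk (cpy P a b ω' blk j)) _ _ ?_ ?_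
    · intro j hg
      rw [coin_eq P a b ω' blk j j.2, noisy_eq P a b M ω' blk j]
      exact hg.out i
    · intro hle
      exact hgood ⟨(r, blk), by simp [hblk], hle⟩

/-- The lower bound. -/
theorem lower_ok (hlog : P_LOG) (hsim : P_SIM) (hpre : P_PRE) (hqry : P_QRY) (hchern : P_CHERN)
    (hasym : P_ASYM) (a b : ℕ) (τ : ℝ) (ha : 0 < a) (hab : a ≤ b) (hτ : τ < 2 + (a : ℝ) / b)
    (h : SmoothedFast a b τ) : OMvFast := by
  obtain ⟨P, hP⟩ := h
  obtain ⟨τ', hτ', hev⟩ := hasym P a b τ ha hab hτ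
  refine ⟨red P a b, τ', hτ', ?_⟩
  filter_upwards [hP, hev] with n h1 h2
  exact red_worst hlog hsim hpre hqry hchern P a b n _ _ h2.1 h1 h2.2.1 h2.2.2

end Pool.Agent.W2helper22.SM
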