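import Pool.Agent.W2helper22.SM.Exec
import Pool.Agent.W2helper22.SM.Stm3

set_option autoImplicit false

/-! # Executions of the reduction (noise in the matrix and in the vectors) -/

namespace Pool.Agent.W2helper22.SM

theorem BigW2.one_lt {P : Alg} {c d : Level} {a b n W' : ℕ} (h : BigW2 P c d a b n W') :
    1 < W' := by
  have h2 := h.2.2.2.2.2.2
  have h3 : 8 * 200 * 1 * 1 ≤
      8 * (P.W n + P.pre.mx + P.qry.mx + c.size + d.size + a + b + 300) * (n + 1) *
      (dL a b n + 1) := by
    refine Nat.mul_le_mul (Nat.mul_le_mul (Nat.mul_le_mul_left _ (by omega)) (by omega)) (by omega)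
  omega

/-- The answers of the reduction: block by block the majority of the copies. -/
def Maj2 (P : Alg) (c d : Level) (a b : ℕ) {n : ℕ} (ω' : ℕ → ℕ → ℕ) (ω : ℕ → ℕ → ℕ → ℕ)
    (M v : Fin n → Fin n → Bool) (i : Fin n) (m : Mem) : Prop :=
  ∀ r : Fin n, (m.a 2 0 r ≠ 0 ↔ ∃ blk < dB a b n,
    cK n < 2 * Nat.card {j : Fin (cK n) // outBit P (P.W n) (ω (blk * cK n + j))
      (noisyM c a b M ω' blk j) (noisyV d a b v ω' blk j) i r})

theorem exec_red2 (hpre : P_PRE2) (hqry : P_QRY2) (P : Alg) (c d : Level)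
    (a b n W' : ℕ) (ω' : ℕ → ℕ → ℕ) (ω : ℕ → ℕ → ℕ → ℕ) (M v : Fin n → Fin n → Bool) (T : ℕ)
    (hW : BigW2 P c d a b n W') (hc : Coins2 P a b n ω' ω)
    (hex : ∀ blk < dB a b n, ∀ j < cK n, ∃ m t, t ≤ T ∧
      Exec (P.W n) (ω (blk * cK n + j)) P (noisyM c a b M ω' blk j) (noisyV d a b v ω' blk j)
        (fun _ _ => True) n m t) :
    ∃ m' t', Exec W' ω' (red2 P c d a b) M v (Maj2 P c d a b ω' ω M v) n m' t' ∧
      t' ≤ 4000 * (dL a b n + 1) * (n + 1) ^ 2 + 10 * (dL a b n * T) := by
  classical
  have hK : 0 < cK n := by unfold cK; omega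
  choose! mf tf hT hE using hex
  have hst : ∀ blk < dB a b n, ∀ j < cK n, ∃ (st : ℕ → Mem) (tm : ℕ → ℕ), tm n = tf blk j ∧
      Runs (P.W n) (ω (blk * cK n + j)) P.pre (init (noisyM c a b M ω' blk j)) (st 0) (tm 0) ∧
      (∀ k ≤ n, Exec (P.W n) (ω (blk * cK n + j)) P (noisyM c a b M ω' blk j)
        (noisyV d a b v ω' blk j) (fun _ _ => True) k (st k) (tm k)) ∧
      ∀ k < n, ∃ (hk : k < n) (c : ℕ),
        Runs (P.W n) (ω (blk * cK n + j)) P.qry ((st k).load (noisyV d a b v ω' blk j ⟨k, hk⟩))
          (st (k + 1)) c ∧ tm (k + 1) = tm k + c :=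
    fun blk hblk j hj => (hE blk hblk j hj).states
  choose! st tm h1 h2 h3 h4 using hst
  -- index form
  have hdiv : ∀ blk j, j < cK n → (blk * cK n + j) / cK n = blk := by
    intro blk j hj
    rw [Nat.mul_comm, Nat.mul_add_div hK, Nat.div_eq_of_lt hj, Nat.add_zero]
  have hmod : ∀ blk j, j < cK n → (blk * cK n + j) % cK n = j := by
    intro blk j hj
    rw [Nat.mul_comm, Nat.mul_add_mod, Nat.mod_eq_of_lt hj]
  let μ : ℕ → ℕ → Mem := fun k idx => st (idx / cK n) (idx % cK n) k
  let τ : ℕ → ℕ → ℕ := fun k idx => tm (idx / cK n) (idx % cK n) k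
  have hμ : ∀ k blk j, j < cK n → μ k (blk * cK n + j) = st blk j k := by
    intro k blk j hj
    simp only [μ, hdiv blk j hj, hmod blk j hj]
  have hτ : ∀ k blk j, j < cK n → τ k (blk * cK n + j) = tm blk j k := by
    intro k blk j hj
    simp only [τ, hdiv blk j hj, hmod blk j hj]
  have hidx : ∀ idx < dL a b n, idx / cK n < dB a b n ∧ idx % cK n < cK n := by
    intro idx hidx
    refine ⟨?_, Nat.mod_lt _ hK⟩
    rw [Nat.div_lt_iff_lt_mul hK]
    exact hidx
  have hstep : ∀ k ≤ n, ∃ m' t', Exec W' ω' (red2 P c d a b) M v (Maj2 P c d a b ω' ω M v) k m' t' ∧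
      Regs2 d a b n k m' ∧ (∀ r i j, m'.a r i j < W') ∧
      (∀ idx < dL a b n, Inst (dL a b n) idx m' (μ k idx)) ∧
      t' ≤ 2000 * (dL a b n + 1) * (n + 1) ^ 2 + k * (2000 * (dL a b n + 1) * (n + 1)) +
        10 * ∑ idx ∈ Finset.range (dL a b n), τ k idx := by
    intro k
    induction k with
    | zero =>
      intro _
      have := hpre P c d a b n W' ω' ω M (μ 0) (τ 0) hW hc (by
        intro blk hblk j hj
        rw [hμ 0 blk j hj, hτ 0 blk j hj]
        exact h2 blk hblk j hj)
      obtain ⟨m', t', hr, ht, hq⟩ := this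
      refine ⟨m', t', .start hr, hq.1, hr.entries_lt (init_entries_lt M hW.one_lt), hq.2, ?_⟩
      simpa using ht
    | succ k ih =>
      intro hk
      obtain ⟨m, t, he, hreg, hbd, hinst, ht⟩ := ih (by omega)
      have hkn : k < n := by omega
      let cc : ℕ → ℕ := fun idx => τ (k + 1) idx - τ k idx
      have hcc : ∀ blk < dB a b n, ∀ j < cK n,
          Runs (P.W n) (ω (blk * cK n + j)) P.qry
            ((μ k (blk * cK n + j)).load (noisyV d a b v ω' blk j ⟨k, hkn⟩))
            (μ (k + 1) (blk * cK n + j)) (cc (blk * cK n + j)) := by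
        intro blk hblk j hj
        obtain ⟨_, c, hr, hcm⟩ := h4 blk hblk j hj k hkn
        have : cc (blk * cK n + j) = c := by
          simp only [cc]
          rw [hτ _ blk j hj, hτ _ blk j hj, hcm]
          omega
        rw [this, hμ _ blk j hj, hμ _ blk j hj]
        exact hr
      have hmono : ∀ idx < dL a b n, τ k idx ≤ τ (k + 1) idx := by
        intro idx hidx'
        obtain ⟨hb, hj⟩ := hidx idx hidx'
        obtain ⟨_, c, hr, hcm⟩ := h4 _ hb _ hj k hkn
        simp only [τ]
        rw [hcm]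
        omega
      obtain ⟨m', c', hr, hcle, hreg', hinst', hout⟩ :=
        hqry P c d a b n W' ⟨k, hkn⟩ ω' ω v m (μ k) (μ (k + 1)) cc hW hc hreg hbd hinst hcc
      refine ⟨m', t + c', .next hkn he hr ?_, hreg',
        hr.entries_lt (load_entries_lt _ _ hW.one_lt hbd), hinst', ?_⟩
      · intro r
        rw [hout r]
        have hcnt : ∀ blk < dB a b n, ((Finset.range (cK n)).filter
            (fun j => (μ (k + 1) (blk * cK n + j)).a 2 0 r ≠ 0)).card =
            Nat.card {j : Fin (cK n) // outBit P (P.W n) (ω (blk * cK n + j))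
              (noisyM c a b M ω' blk j) (noisyV d a b v ω' blk j) ⟨k, hkn⟩ r} := by
          intro blk hblk
          rw [Nat.card_eq_fintype_card, Fintype.card_subtype]
          refine Finset.card_bij' (fun j hj => ⟨j, by simpa using (Finset.mem_filter.1 hj).1⟩)
            (fun j _ => (j : ℕ)) ?_ ?_ ?_ ?_
          · intro j hj
            rw [Finset.mem_filter] at hj
            have hjK : j < cK n := by simpa using hj.1
            refine Finset.mem_filter.2 ⟨Finset.mem_univ _, ?_⟩
            have h8 := hj.2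
            rw [hμ _ blk j hjK] at h8
            exact ⟨st blk j (k + 1), tm blk j (k + 1), h3 blk hblk j hjK (k + 1) hk, h8⟩
          · intro j hj
            rw [Finset.mem_filter] at hj
            obtain ⟨m1, t1, he1, hne⟩ := hj.2
            rw [Finset.mem_filter]
            refine ⟨by simp, ?_⟩
            have := (h3 blk hblk j j.2 (k + 1) hk).det he1
            rw [hμ _ blk j j.2, this.1]
            exact hne
          · intro j hj; rfl
          · intro j hj; rfl
        constructor
        · rintro ⟨blk, hblk, hlt⟩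
          exact ⟨blk, hblk, by rw [← hcnt blk hblk]; exact hlt⟩
        · rintro ⟨blk, hblk, hlt⟩
          exact ⟨blk, hblk, by rw [hcnt blk hblk]; exact hlt⟩
      · have hsum : ∑ idx ∈ Finset.range (dL a b n), τ k idx +
            ∑ idx ∈ Finset.range (dL a b n), cc idx =
            ∑ idx ∈ Finset.range (dL a b n), τ (k + 1) idx := by
          rw [← Finset.sum_add_distrib]
          refine Finset.sum_congr rfl ?_
          intro idx hidx'
          have := hmono idx (by simpa using hidx')
          simp only [cc]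
          omega
        rw [← hsum]
        have : (k + 1) * (2000 * (dL a b n + 1) * (n + 1)) =
            k * (2000 * (dL a b n + 1) * (n + 1)) + 2000 * (dL a b n + 1) * (n + 1) := by ring
        rw [this]
        omega
  obtain ⟨m', t', he, _, _, _, ht⟩ := hstep n le_rfl
  refine ⟨m', t', he, ht.trans ?_⟩
  have hsum : ∑ idx ∈ Finset.range (dL a b n), τ n idx ≤ dL a b n * T := by
    calc ∑ idx ∈ Finset.range (dL a b n), τ n idx
        ≤ ∑ idx ∈ Finset.range (dL a b n), T := by
          refine Finset.sum_le_sum ?_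
          intro idx hidx'
          obtain ⟨hb, hj⟩ := hidx idx (by simpa using hidx')
          simp only [τ]
          rw [h1 _ hb _ hj]
          exact hT _ hb _ hj
      _ = dL a b n * T := by rw [Finset.sum_const, Finset.card_range, smul_eq_mul]
  have h5 : n * (2000 * (dL a b n + 1) * (n + 1)) ≤ 2000 * (dL a b n + 1) * (n + 1) ^ 2 := by
    have : n * (2000 * (dL a b n + 1) * (n + 1)) = 2000 * (dL a b n + 1) * (n * (n + 1)) := by ring
    rw [this]
    refine Nat.mul_le_mul_left _ ?_
    nlinarith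
  have h6 : 4000 * (dL a b n + 1) * (n + 1) ^ 2 = 2000 * (dL a b n + 1) * (n + 1) ^ 2 +
      2000 * (dL a b n + 1) * (n + 1) ^ 2 := by ring
  rw [h6]
  have h7 := Nat.mul_le_mul_left 10 hsum
  omega

end Pool.Agent.W2helper22.SM
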