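import Pool.Agent.W2helper22.SM.LowProb
import Pool.Agent.W2helper22.SM.Exec2

set_option autoImplicit false

/-! # The reduction with two kinds of noise is correct with probability `≥ 2 / 3` -/

namespace Pool.Agent.W2helper22.SM

open Finset

/-! ## Probabilities -/

theorem prob_and_prod {α β : Type} [Finite α] [Finite β] (P : α → Prop) (Q : β → Prop) :
    prob (fun p : α × β => P p.1 ∧ Q p.2) = prob P * prob Q := by
  unfold prob
  rw [Nat.card_congr (Equiv.subtypeProdEquivProd (p := P) (q := Q)), Nat.card_prod,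
    Nat.card_prod]
  push_cast
  rw [mul_div_mul_comm]

theorem prob_fst {α β : Type} [Finite α] [Finite β] [Nonempty β] (P : α → Prop) :
    prob (fun p : α × β => P p.1) = prob P := by
  have h := prob_and_prod P (fun _ : β => True)
  rw [prob_true, mul_one] at h
  rw [← h]
  congr 1
  funext p
  simp

theorem prob_snd {α β : Type} [Finite α] [Finite β] [Nonempty α] (Q : β → Prop) :
    prob (fun p : α × β => Q p.2) = prob Q := by
  have h := prob_and_prod (fun _ : α => True) Q
  rw [prob_true, one_mul] at h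
  rw [← h]
  congr 1
  funext p
  simp

theorem Level.den_pos (c : Level) (n : ℕ) : 0 < c.den n := by
  cases c with
  | none => exact Nat.one_pos
  | some p => exact noise_pos _ _ _

theorem Level.den_dvd {c : Level} (hc : c.Valid) (n : ℕ) : c.den n ∣ 2 ^ bits n := by
  cases c with
  | none => exact one_dvd _
  | some p =>
    obtain ⟨h1, h2⟩ := hc
    exact noise_dvd _ _ n (by omega) h2

theorem prob_level (c : Level) {n : ℕ} (r k : Fin n) :
    prob (fun R : Fin n → Fin n → Fin (c.den n) => (R r k : ℕ) < c.num) ≤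
      (c.num : ℝ) / c.den n := by
  cases c with
  | none =>
    simp only [Level.num, Nat.not_lt_zero, Nat.cast_zero, zero_div]
    unfold prob
    simp
  | some p =>
    simp only [Level.num, Nat.lt_one_iff, Nat.cast_one]
    exact le_of_eq (prob_entry n _ r k (noise_pos _ _ _))

/-! ## Copies -/

/-- The number of the words of one copy: the noise of the matrix, of the vectors, the coins. -/
abbrev Idx2 (n W : ℕ) : Type := (Fin n × Fin n) ⊕ ((Fin n × Fin n) ⊕ (Fin W × Fin W))

/-- The noise in the matrix of a copy. -/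
def nzM (c : Level) {n W β : ℕ} (y : Idx2 n W → Fin (2 ^ β)) : Fin n → Fin n → Fin (c.den n) :=
  fun r k => ⟨(y (Sum.inl (r, k)) : ℕ) % c.den n, Nat.mod_lt _ (c.den_pos n)⟩

/-- The noise in the vectors of a copy. -/
def nzV (d : Level) {n W β : ℕ} (y : Idx2 n W → Fin (2 ^ β)) : Fin n → Fin n → Fin (d.den n) :=
  fun i k => ⟨(y (Sum.inr (Sum.inl (i, k))) : ℕ) % d.den n, Nat.mod_lt _ (d.den_pos n)⟩

/-- The coins of a copy. -/
def cn2 {n W β : ℕ} (y : Idx2 n W → Fin (2 ^ β)) : Tape W β := fun i j => y (Sum.inr (Sum.inr (i, j)))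

/-- A copy is good for the row `r`, the vector `i` and the block `blk`: all its answers are right,
there is no noise in the row `r` and in the vector `i` in the block, and no place with noise both in
the row `r` and in the vector `i`. -/
def Good2 (P : Alg) (c d : Level) (a b : ℕ) {n : ℕ} (M v : Fin n → Fin n → Bool) (r i : Fin n)
    (blk : ℕ) (y : Idx2 n (P.W n) → Fin (2 ^ bits n)) : Prop :=
  (∃ m t, Exec (P.W n) (cn2 y).word P (c.flip (maskm a b M blk) (nzM c y))
      (d.flip (maskm a b v blk) (nzV d y))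
      (Right (c.flip (maskm a b M blk) (nzM c y)) (d.flip (maskm a b v blk) (nzV d y))) n m t) ∧
    (∀ k : Fin n, (k : ℕ) / ds a b n = blk → ¬ (nzM c y r k : ℕ) < c.num) ∧
    (∀ k : Fin n, (k : ℕ) / ds a b n = blk → ¬ (nzV d y i k : ℕ) < d.num) ∧
    ∀ k : Fin n, ¬ ((nzM c y r k : ℕ) < c.num ∧ (nzV d y i k : ℕ) < d.num)

theorem prob_copy2 {n W β : ℕ} (c d : Level) (hc : c.den n ∣ 2 ^ β) (hd : d.den n ∣ 2 ^ β)
    (Q : (Fin n → Fin n → Fin (c.den n)) × (Fin n → Fin n → Fin (d.den n)) × Tape W β → Prop) :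
    prob (fun y : Idx2 n W → Fin (2 ^ β) => Q (nzM c y, nzV d y, cn2 y)) = prob Q := by
  classical
  have hS := c.den_pos n
  have hS' := d.den_pos n
  have hT : 0 < 2 ^ β / c.den n := Nat.div_pos (Nat.le_of_dvd (by positivity) hc) hS
  have hT' : 0 < 2 ^ β / d.den n := Nat.div_pos (Nat.le_of_dvd (by positivity) hd) hS'
  have hne : Nonempty ((Fin n → Fin n → Fin (c.den n)) × (Fin n → Fin n → Fin (d.den n)) ×
      Tape W β) :=
    ⟨(fun _ _ => ⟨0, hS⟩, fun _ _ => ⟨0, hS'⟩, fun _ _ => ⟨0, by positivity⟩)⟩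
  refine prob_fib (fun y : Idx2 n W → Fin (2 ^ β) => (nzM c y, nzV d y, cn2 y))
    ((2 ^ β / c.den n) ^ Fintype.card (Fin n × Fin n) *
      (2 ^ β / d.den n) ^ Fintype.card (Fin n × Fin n)) Q
    (Nat.mul_pos (pow_pos hT _) (pow_pos hT' _)) ?_
  rintro ⟨R, R', ω⟩
  have e : {y : Idx2 n W → Fin (2 ^ β) // (nzM c y, nzV d y, cn2 y) = (R, R', ω)} ≃
      (∀ p : Fin n × Fin n, {x : Fin (2 ^ β) //
        (⟨(x : ℕ) % c.den n, Nat.mod_lt _ hS⟩ : Fin (c.den n)) = R p.1 p.2}) ×
      (∀ p : Fin n × Fin n, {x : Fin (2 ^ β) //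
        (⟨(x : ℕ) % d.den n, Nat.mod_lt _ hS'⟩ : Fin (d.den n)) = R' p.1 p.2}) := by
    refine ⟨fun y => (fun p => ⟨y.1 (Sum.inl p), ?_⟩, fun p => ⟨y.1 (Sum.inr (Sum.inl p)), ?_⟩),
      fun g => ⟨fun x => match x with
      | Sum.inl p => (g.1 p).1
      | Sum.inr (Sum.inl p) => (g.2 p).1
      | Sum.inr (Sum.inr p) => ω p.1 p.2, ?_⟩, ?_, ?_⟩
    · have := congrArg Prod.fst y.2
      exact congrFun (congrFun this p.1) p.2
    · have := congrArg (fun x => x.2.1) y.2
      exact congrFun (congrFun this p.1) p.2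
    · refine Prod.ext ?_ (Prod.ext ?_ ?_)
      · funext r k
        exact (g.1 (r, k)).2
      · funext r k
        exact (g.2 (r, k)).2
      · rfl
    · rintro ⟨y, hy⟩
      apply Subtype.ext
      funext x
      rcases x with p | p | p
      · rfl
      · rfl
      · have := congrArg (fun x => x.2.2) hy
        exact (congrFun (congrFun this p.1) p.2).symm
    · intro g
      rfl
  rw [Nat.card_congr e, Nat.card_prod, Nat.card_pi, Nat.card_pi]
  simp only [card_mod_fib (c.den n) (2 ^ β) hS hc, card_mod_fib (d.den n) (2 ^ β) hS' hd]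
  rw [prod_const, prod_const, card_univ]

theorem bmv_good (c d : Level) (a b : ℕ) {n : ℕ} (M v : Fin n → Fin n → Bool)
    (R : Fin n → Fin n → Fin (c.den n)) (R' : Fin n → Fin n → Fin (d.den n)) (r i : Fin n)
    (blk : ℕ) (h1 : ∀ k : Fin n, (k : ℕ) / ds a b n = blk → ¬ (R r k : ℕ) < c.num)
    (h2 : ∀ k : Fin n, (k : ℕ) / ds a b n = blk → ¬ (R' i k : ℕ) < d.num)
    (h3 : ∀ k : Fin n, ¬ ((R r k : ℕ) < c.num ∧ (R' i k : ℕ) < d.num)) :
    bmv (c.flip (maskm a b M blk) R) (d.flip (maskm a b v blk) R' i) r ↔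
      bmv (maskm a b M blk) (maskm a b v blk i) r := by
  unfold bmv
  refine exists_congr (fun k => ?_)
  by_cases hk : (k : ℕ) / ds a b n = blk
  · have h1k := h1 k hk
    have h2k := h2 k hk
    simp [Level.flip, h1k, h2k]
  · have h3k := h3 k
    simp only [Level.flip, maskm, hk, decide_false, Bool.and_false, Bool.false_xor,
      decide_eq_true_eq]
    simpa using fun x y => h3k ⟨x, y⟩

/-- The answers of a good copy. -/
theorem Good2.out {P : Alg} {c d : Level} {a b n : ℕ} {M v : Fin n → Fin n → Bool} {r i : Fin n}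
    {blk : ℕ} {y : Idx2 n (P.W n) → Fin (2 ^ bits n)} (h : Good2 P c d a b M v r i blk y) :
    outBit P (P.W n) (cn2 y).word (c.flip (maskm a b M blk) (nzM c y))
      (d.flip (maskm a b v blk) (nzV d y)) i r ↔ bmv (maskm a b M blk) (maskm a b v blk i) r := by
  obtain ⟨⟨m, t, he⟩, h1, h2, h3⟩ := h
  rw [← bmv_good c d a b M v (nzM c y) (nzV d y) r i blk h1 h2 h3]
  have hpre : ∀ N m t, Exec (P.W n) (cn2 y).word P (c.flip (maskm a b M blk) (nzM c y))
      (d.flip (maskm a b v blk) (nzV d y))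
      (Right (c.flip (maskm a b M blk) (nzM c y)) (d.flip (maskm a b v blk) (nzV d y))) N m t →
      (i : ℕ) + 1 ≤ N →
      ∃ m' t', Exec (P.W n) (cn2 y).word P (c.flip (maskm a b M blk) (nzM c y))
        (d.flip (maskm a b v blk) (nzV d y))
        (Right (c.flip (maskm a b M blk) (nzM c y)) (d.flip (maskm a b v blk) (nzV d y)))
        ((i : ℕ) + 1) m' t' ∧
        Right (c.flip (maskm a b M blk) (nzM c y)) (d.flip (maskm a b v blk) (nzV d y)) i m' := by
    intro N m t h
    induction h with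
    | start _ => intro hi; omega
    | @next k m m' t c hk h hr hg ih =>
      intro hi
      by_cases hki : (i : ℕ) = k
      · subst hki
        exact ⟨m', t + c, .next hk h hr hg, hg⟩
      · exact ih (by omega)
  obtain ⟨m', t', he', hR⟩ := hpre n m t he i.2
  constructor
  · rintro ⟨m1, t1, he1, hne⟩
    have := he1.det he'
    rw [this.1] at hne
    exact (hR r).1 hne
  · intro hb
    exact ⟨m', t', he'.weaken (fun _ _ _ => trivial), (hR r).2 hb⟩

/-- The columns of a block. -/
def blockC (a b n blk : ℕ) : Finset (Fin n) := univ.filter (fun k : Fin n => (k : ℕ) / ds a b n = blk)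

theorem card_blockC (a b n blk : ℕ) (h : 256 ≤ noise a b n) :
    256 * (blockC a b n blk).card ≤ noise a b n := by
  have hcs : 256 * ds a b n ≤ noise a b n := by
    unfold ds
    exact Nat.mul_div_le _ _
  have hcspos : 0 < ds a b n := by
    unfold ds
    exact Nat.div_pos h (by norm_num)
  refine le_trans (Nat.mul_le_mul_left _ ?_) hcs
  have : ((blockC a b n blk).image (fun c : Fin n => (c : ℕ))) ⊆
      Finset.Ico (blk * ds a b n) ((blk + 1) * ds a b n) := by
    intro x hx
    rw [mem_image] at hx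
    obtain ⟨c, hc, rfl⟩ := hx
    have hc' : (c : ℕ) / ds a b n = blk := (mem_filter.1 hc).2
    rw [mem_Ico]
    constructor
    · rw [← hc']
      exact Nat.div_mul_le_self _ _
    · rw [← hc']
      exact Nat.lt_mul_of_div_lt (Nat.lt_succ_self _) hcspos
  calc (blockC a b n blk).card = ((blockC a b n blk).image (fun c : Fin n => (c : ℕ))).card :=
        (card_image_of_injective _ Fin.val_injective).symm
    _ ≤ (Finset.Ico (blk * ds a b n) ((blk + 1) * ds a b n)).card := card_le_card this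
    _ = ds a b n := by
      rw [Nat.card_Ico, Nat.add_mul, Nat.one_mul, Nat.add_sub_cancel_left]

theorem prob_block (c : Level) (a b : ℕ) {n : ℕ} (r : Fin n) (blk : ℕ) (h : 256 ≤ noise a b n)
    (hc : c = none ∨ noise a b n ≤ c.den n) :
    prob (fun R : Fin n → Fin n → Fin (c.den n) =>
      ∃ k ∈ blockC a b n blk, (R r k : ℕ) < c.num) ≤ 1 / 256 := by
  refine le_trans (prob_exists (blockC a b n blk)
    (fun k (R : Fin n → Fin n → Fin (c.den n)) => (R r k : ℕ) < c.num)) ?_
  refine le_trans (sum_le_sum (g := fun _ => (c.num : ℝ) / c.den n)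
    (fun k _ => prob_level c r k)) ?_
  rw [sum_const, nsmul_eq_mul]
  have hcard := card_blockC a b n blk h
  rcases hc with rfl | hc
  · simp [Level.num]
  · have h1 : (c.num : ℝ) ≤ 1 := by
      cases c with
      | none => simp [Level.num]
      | some p => simp [Level.num]
    have h2 : (0 : ℝ) < c.den n := by exact_mod_cast c.den_pos n
    have h3 : (256 : ℝ) * (blockC a b n blk).card ≤ c.den n := by
      exact_mod_cast hcard.trans hc
    rw [← mul_div_assoc, div_le_div_iff₀ h2 (by norm_num)]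
    have h4 : (0 : ℝ) ≤ (blockC a b n blk).card := by positivity
    nlinarith

/-- The probability that a copy is bad. -/
theorem prob_bad2 (P : Alg) (c d : Level) (a b : ℕ) {n : ℕ} (M v : Fin n → Fin n → Bool) (T : ℝ)
    {W' : ℕ} (hW : BigW2 P c d a b n W') (hc : c = none ∨ noise a b n ≤ c.den n)
    (hd : d = none ∨ noise a b n ≤ d.den n)
    (hcd : (n : ℝ) * ((c.num : ℝ) / c.den n * ((d.num : ℝ) / d.den n)) ≤ 1 / 128)
    (hsm : Smoothed2 P n c d T) (r i : Fin n) (blk : ℕ) :
    prob (fun y => ¬ Good2 P c d a b M v r i blk y) ≤ 1 / 3 + 1 / 64 := by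
  classical
  obtain ⟨hn, hcv, hdv, hb, hab, h256, _⟩ := hW
  have hcd1 := Level.den_dvd hcv n
  have hdd1 := Level.den_dvd hdv n
  have hS := c.den_pos n
  have hS' := d.den_pos n
  have hneR : Nonempty (Fin n → Fin n → Fin (c.den n)) := ⟨fun _ _ => ⟨0, hS⟩⟩
  have hneR' : Nonempty (Fin n → Fin n → Fin (d.den n)) := ⟨fun _ _ => ⟨0, hS'⟩⟩
  have hneT : Nonempty (Tape (P.W n) (bits n)) := ⟨fun _ _ => ⟨0, by positivity⟩⟩
  let X := (Fin n → Fin n → Fin (c.den n)) × (Fin n → Fin n → Fin (d.den n)) ×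
    Tape (P.W n) (bits n)
  let Q1 : X → Prop := fun p =>
    Solves P p.2.2.word (c.flip (maskm a b M blk) p.1) (d.flip (maskm a b v blk) p.2.1) T
  let Q2 : X → Prop := fun p => ∃ k ∈ blockC a b n blk, (p.1 r k : ℕ) < c.num
  let Q3 : X → Prop := fun p => ∃ k ∈ blockC a b n blk, (p.2.1 i k : ℕ) < d.num
  let Q4 : X → Prop := fun p => ∃ k ∈ (univ : Finset (Fin n)),
    (p.1 r k : ℕ) < c.num ∧ (p.2.1 i k : ℕ) < d.num
  have h1 : 2 / 3 ≤ prob Q1 := (hsm (maskm a b M blk) (maskm a b v blk)).2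
  have h2 : prob Q2 ≤ 1 / 256 := by
    have := prob_fst (β := (Fin n → Fin n → Fin (d.den n)) × Tape (P.W n) (bits n))
      (fun R : Fin n → Fin n → Fin (c.den n) => ∃ k ∈ blockC a b n blk, (R r k : ℕ) < c.num)
    show prob (fun p : X => _) ≤ _
    rw [this]
    exact prob_block c a b r blk h256 hc
  have h3 : prob Q3 ≤ 1 / 256 := by
    have e1 := prob_snd (α := Fin n → Fin n → Fin (c.den n))
      (β := (Fin n → Fin n → Fin (d.den n)) × Tape (P.W n) (bits n))
      (fun p => ∃ k ∈ blockC a b n blk, (p.1 i k : ℕ) < d.num)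
    have e2 := prob_fst (β := Tape (P.W n) (bits n))
      (fun R : Fin n → Fin n → Fin (d.den n) => ∃ k ∈ blockC a b n blk, (R i k : ℕ) < d.num)
    show prob (fun p : X => _) ≤ _
    rw [e1, e2]
    exact prob_block d a b i blk h256 hd
  have h4 : prob Q4 ≤ 1 / 128 := by
    refine le_trans (prob_exists (univ : Finset (Fin n))
      (fun k (p : X) => (p.1 r k : ℕ) < c.num ∧ (p.2.1 i k : ℕ) < d.num)) ?_
    refine le_trans (sum_le_sum (g := fun _ =>
      (c.num : ℝ) / c.den n * ((d.num : ℝ) / d.den n)) (fun k _ => ?_)) ?_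
    · have e1 := prob_and_prod (α := Fin n → Fin n → Fin (c.den n))
        (β := (Fin n → Fin n → Fin (d.den n)) × Tape (P.W n) (bits n))
        (fun R => (R r k : ℕ) < c.num) (fun p => (p.1 i k : ℕ) < d.num)
      have e2 := prob_fst (β := Tape (P.W n) (bits n))
        (fun R : Fin n → Fin n → Fin (d.den n) => (R i k : ℕ) < d.num)
      show prob (fun p : X => _) ≤ _
      rw [e1, e2]
      exact mul_le_mul (prob_level c r k) (prob_level d i k) (prob_nonneg _) (by positivity)
    · rw [sum_const, card_univ, Fintype.card_fin, nsmul_eq_mul]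
      exact hcd
  have h5 : prob (fun y : Idx2 n (P.W n) → Fin (2 ^ bits n) => ¬ Good2 P c d a b M v r i blk y) ≤
      prob (fun y : Idx2 n (P.W n) → Fin (2 ^ bits n) =>
        ((¬ Q1 (nzM c y, nzV d y, cn2 y)) ∨ Q2 (nzM c y, nzV d y, cn2 y)) ∨
        (Q3 (nzM c y, nzV d y, cn2 y) ∨ Q4 (nzM c y, nzV d y, cn2 y))) := by
    refine prob_mono ?_
    intro y hy
    by_contra hcon
    rw [not_or, not_or, not_or, not_not] at hcon
    obtain ⟨⟨g1, g2⟩, g3, g4⟩ := hcon
    apply hy
    refine ⟨?_, ?_, ?_, ?_⟩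
    · obtain ⟨m, t, he, _⟩ := g1
      exact ⟨m, t, he⟩
    · intro k hk h0
      exact g2 ⟨k, mem_filter.2 ⟨mem_univ _, hk⟩, h0⟩
    · intro k hk h0
      exact g3 ⟨k, mem_filter.2 ⟨mem_univ _, hk⟩, h0⟩
    · intro k h0
      exact g4 ⟨k, mem_univ _, h0⟩
  refine h5.trans ((prob_or _ _).trans ((add_le_add (prob_or _ _) (prob_or _ _)).trans ?_))
  have g1 := prob_copy2 (n := n) (W := P.W n) (β := bits n) c d hcd1 hdd1 (fun p => ¬ Q1 p)
  have g2 := prob_copy2 (n := n) (W := P.W n) (β := bits n) c d hcd1 hdd1 Q2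
  have g3 := prob_copy2 (n := n) (W := P.W n) (β := bits n) c d hcd1 hdd1 Q3
  have g4 := prob_copy2 (n := n) (W := P.W n) (β := bits n) c d hcd1 hdd1 Q4
  rw [g1, g2, g3, g4, prob_not]
  linarith

end Pool.Agent.W2helper22.SM
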