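import Pool.Agent.W2helper22.SM.Logic

set_option autoImplicit false

/-!
# Project SM: the smoothed complexity of OMv. Programs and statements of the pieces.

THEOREM (`MP_5359c6_lc`, hard). Flip every entry of the matrix independently with probability
`n ^ (-c)`, `c = a / b ∈ (0, 1]` rational. Then OMv can be solved in time `n ^ (2 + c + o(1))`
(unconditionally), and it cannot be solved in time `n ^ (2 + c - δ)` unless the OMv conjecture
fails; for `c = 1` the smoothed form is equivalent to the OMv conjecture. Model: `Model.lean`.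
-/

namespace Pool.Agent.W2helper22.SM

/-! ## Abbreviations -/

abbrev eAdd (e f : Expr) : Expr := .bin .add e f
abbrev eSub (e f : Expr) : Expr := .bin .sub e f
abbrev eMul (e f : Expr) : Expr := .bin .mul e f
abbrev eDiv (e f : Expr) : Expr := .bin .div e f
abbrev eMod (e f : Expr) : Expr := .bin .mod e f
abbrev eShl (e f : Expr) : Expr := .bin .shl e f

/-! ## Simulation of many copies of an algorithm in one memory

The copy with the number `idx` (in register `1`) of `L` (in register `2`) copies has its register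
`x` at the entry `(x, idx)` of the array `10` and the entry `(i, j)` of its array `r` at the entry
`(i, j * L + idx)` of the array `11 + r`; its random word `(i, j)` is the random word
`(2 * i, j * L + idx)`. -/

def Expr.sim : Expr → Expr
  | .lit n => .lit n
  | .reg x => .get 10 (.lit x) (.reg 1)
  | .bin o e f => .bin o e.sim f.sim
  | .get r i j => .get (11 + r) i.sim (eAdd (eMul j.sim (.reg 2)) (.reg 1))
  | .rnd i j => .rnd (eMul (.lit 2) i.sim) (eAdd (eMul j.sim (.reg 2)) (.reg 1))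

def Test.sim : Test → Test
  | .lt e f => .lt e.sim f.sim
  | .eq e f => .eq e.sim f.sim
  | .not s => .not s.sim
  | .and s t => .and s.sim t.sim

def Prog.sim : Prog → Prog
  | .skip => .skip
  | .assign x e => .store 10 (.lit x) (.reg 1) e.sim
  | .store r i j e => .store (11 + r) i.sim (eAdd (eMul j.sim (.reg 2)) (.reg 1)) e.sim
  | .seq p q => .seq p.sim q.sim
  | .ite t p q => .ite t.sim p.sim q.sim
  | .loop t p => .loop t.sim p.sim

/-- A bound for the numbers of the registers. -/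
def Expr.mx : Expr → ℕ
  | .lit _ => 0
  | .reg x => x
  | .bin _ e f => max e.mx f.mx
  | .get _ i j => max i.mx j.mx
  | .rnd i j => max i.mx j.mx

def Test.mx : Test → ℕ
  | .lt e f => max e.mx f.mx
  | .eq e f => max e.mx f.mx
  | .not s => s.mx
  | .and s t => max s.mx t.mx

def Prog.mx : Prog → ℕ
  | .skip => 0
  | .assign x e => max x e.mx
  | .store _ i j e => max (max i.mx j.mx) e.mx
  | .seq p q => max p.mx q.mx
  | .ite t p q => max t.mx (max p.mx q.mx)
  | .loop t p => max t.mx p.mx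

/-- The copy `idx` in the memory `m` is in the state `μ`. -/
def Inst (L idx : ℕ) (m μ : Mem) : Prop :=
  (∀ x, m.a 10 x idx = μ.v x) ∧ ∀ r i j, m.a (11 + r) i (j * L + idx) = μ.a r i j

/-- Only the copy `idx` was changed. -/
def SimFrame (L idx : ℕ) (m m' : Mem) : Prop :=
  m'.v = m.v ∧ (∀ r < 10, m'.a r = m.a r) ∧
    (∀ idx', idx' ≠ idx → ∀ x, m'.a 10 x idx' = m.a 10 x idx') ∧
    ∀ idx' < L, idx' ≠ idx → ∀ r i j,
      m'.a (11 + r) i (j * L + idx') = m.a (11 + r) i (j * L + idx')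

/-- PIECE SIM. Proof: first, for an expression `e` with `e.ok W ω μ` and `e.mx < W'`, that
`e.sim.eval ω' m = e.eval ω μ`, `e.sim.ok W' ω' m` and `e.sim.cost ≤ 7 * e.cost` (by induction;
`e.ok` implies `e.eval < W`, so `j * L + idx < W * L + L`); the same for tests; then induction on
`Runs`. -/
def P_SIM : Prop :=
  ∀ (W W' L idx : ℕ) (ω ω' : ℕ → ℕ → ℕ) (p : Prog) (m μ μ' : Mem) (c : ℕ),
    idx < L → 2 < W' → L < W' → 2 * W ≤ W' → W * L + L ≤ W' → p.mx < W' →
    (∀ i < W, ∀ j < W, ω' (2 * i) (j * L + idx) = ω i j) →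
    m.v 1 = idx → m.v 2 = L → Inst L idx m μ → Runs W ω p μ μ' c →
    Tr W' ω' p.sim m (10 * c) (fun m' => Inst L idx m' μ' ∧ SimFrame L idx m m')

/-! ## The reduction from OMv to smoothed OMv

`n` in register `0`, `log₂ n` in register `3`, the noise parameter `S` in register `4`, the number
`K` of independent copies in register `5`, the length `s` of a block of columns in register `6`, the
number `B` of blocks in register `7`, `L = B * K` in register `2`. -/

/-- `r_3 := log₂ n`. -/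
def logP : Prog :=
  .seq (.assign 3 (.lit 0))
    (.loop (.not (.lt (.reg 0) (eShl (.lit 1) (eAdd (.reg 3) (.lit 1)))))
      (.assign 3 (eAdd (.reg 3) (.lit 1))))

/-- PIECE LOG. -/
def P_LOG : Prop :=
  ∀ (W n : ℕ) (ω : ℕ → ℕ → ℕ) (m : Mem), 1 ≤ n → 4 * n < W → m.v 0 = n →
    Tr W ω logP m (100 * (n + 1)) (fun m' => m' = m.setV 3 (Nat.log 2 n))

def cK (n : ℕ) : ℕ := 100 * bits n + 1
def cs (a b n : ℕ) : ℕ := noise a b n / 64
def cB (a b n : ℕ) : ℕ := n / cs a b n + 1
def cL (a b n : ℕ) : ℕ := cB a b n * cK n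

/-- The entry `(r_12, r_13)` of the matrix with noise, for the copy `r_9`: the matrix entry plus
`1 - (random word mod S)`, modulo `2`. -/
def entryE : Expr :=
  eMod (eAdd (.get 0 (.reg 12) (.reg 13))
    (eSub (.lit 1) (eMod (.rnd (eAdd (eMul (.lit 2) (.reg 12)) (.lit 1))
      (eAdd (eMul (.reg 13) (.reg 5)) (.reg 9))) (.reg 4)))) (.lit 2)

/-- Set up the copy `r_1 = r_8 * K + r_9` and run its preprocessing. -/
def setP (P : Alg) : Prog :=
  .seq (.assign 1 (eAdd (eMul (.reg 8) (.reg 5)) (.reg 9)))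
    (.seq (forR 12 (.reg 0) (forR 13 (.reg 0)
        (.store 11 (.reg 12) (eAdd (eMul (.reg 13) (.reg 2)) (.reg 1)) entryE)))
      (.seq (.store 10 (.lit 0) (.reg 1) (.reg 0)) P.pre.sim))

def redPre (P : Alg) (a b : ℕ) : Prog :=
  .seq logP
    (.seq (.assign 4 (eShl (.lit 1) (eDiv (eMul (.lit a) (.reg 3)) (.lit b))))
    (.seq (.assign 5 (eAdd (eMul (.lit 100) (eAdd (.reg 3) (.lit 1))) (.lit 1)))
    (.seq (.assign 6 (eDiv (.reg 4) (.lit 64)))
    (.seq (.assign 7 (eAdd (eDiv (.reg 0) (.reg 6)) (.lit 1)))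
    (.seq (.assign 2 (eMul (.reg 7) (.reg 5)))
      (forR 8 (.reg 7) (forR 9 (.reg 5) (setP P))))))))

/-- Write the part of the vector in the block `r_8` to the input of the copy `r_1`, run the copy,
and count the answers `1` in the array `3`. -/
def askP (P : Alg) : Prog :=
  .seq (.assign 1 (eAdd (eMul (.reg 8) (.reg 5)) (.reg 9)))
    (.seq (forR 12 (.reg 0)
        (.store 12 (.lit 0) (eAdd (eMul (.reg 12) (.reg 2)) (.reg 1))
          (eMul (.get 1 (.lit 0) (.reg 12)) (eSub (.lit 1)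
            (eAdd (eSub (eDiv (.reg 12) (.reg 6)) (.reg 8))
              (eSub (.reg 8) (eDiv (.reg 12) (.reg 6))))))))
      (.seq P.qry.sim
        (forR 12 (.reg 0)
          (.store 3 (.lit 0) (.reg 12) (eAdd (.get 3 (.lit 0) (.reg 12))
            (eSub (.lit 1) (eSub (.lit 1)
              (.get 13 (.lit 0) (eAdd (eMul (.reg 12) (.reg 2)) (.reg 1))))))))))

def redQry (P : Alg) : Prog :=
  .seq (forR 12 (.reg 0) (.store 2 (.lit 0) (.reg 12) (.lit 0)))
    (forR 8 (.reg 7)
      (.seq (forR 12 (.reg 0) (.store 3 (.lit 0) (.reg 12) (.lit 0)))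
        (.seq (forR 9 (.reg 5) (askP P))
          (forR 12 (.reg 0)
            (.ite (.lt (.reg 5) (eMul (.lit 2) (.get 3 (.lit 0) (.reg 12))))
              (.store 2 (.lit 0) (.reg 12) (.lit 1)) .skip)))))

/-- The algorithm for OMv which uses an algorithm `P` for smoothed OMv. -/
def red (P : Alg) (a b : ℕ) : Alg := ⟨redPre P a b, redQry P, P.wd + 40⟩

/-- The registers of the reduction. -/
def Regs (a b n : ℕ) (m : Mem) : Prop :=
  m.v 0 = n ∧ m.v 2 = cL a b n ∧ m.v 5 = cK n ∧ m.v 6 = cs a b n ∧ m.v 7 = cB a b n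

/-- The matrix with the noise of the copy `j` (`j < K`). -/
def noisy (a b : ℕ) {n : ℕ} (M : Fin n → Fin n → Bool) (ω' : ℕ → ℕ → ℕ) (j : ℕ) :
    Fin n → Fin n → Bool :=
  fun r c => xor (M r c) (decide (ω' (2 * (r : ℕ) + 1) ((c : ℕ) * cK n + j) % noise a b n = 0))

/-- The part of the vector `u` in the block of columns with the number `blk`. -/
def maskv (a b : ℕ) {n : ℕ} (u : Fin n → Bool) (blk : ℕ) : Fin n → Bool :=
  fun c => u c && decide ((c : ℕ) / cs a b n = blk)

/-- The numbers which occur are words. -/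
def BigW (P : Alg) (a b n W' : ℕ) : Prop :=
  1 ≤ n ∧ 0 < b ∧ a ≤ b ∧ 64 ≤ noise a b n ∧
    8 * (P.W n + P.pre.mx + P.qry.mx + a + b + 200) * (n + 1) * (cL a b n + 1) ≤ W'

/-- The random words of the copies. -/
def Coins (P : Alg) (a b n : ℕ) (ω' : ℕ → ℕ → ℕ) (ω : ℕ → ℕ → ℕ → ℕ) : Prop :=
  (∀ i j, ω' i j < 2 ^ bits n) ∧
    ∀ idx < cL a b n, ∀ i < P.W n, ∀ j < P.W n,
      ω' (2 * i) (j * cL a b n + idx) = ω idx i j

/-- PIECE PRE (`P_LOG`, `P_SIM` may be used). Note `noise a b n ≤ n`, `cK n ≤ 200 * (n + 1)`,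
`2 ^ bits n ≤ 2 * n`. All arrays of number `≥ 1` are zero in `init M`. -/
def P_PRE : Prop :=
  P_LOG → P_SIM →
  ∀ (P : Alg) (a b n W' : ℕ) (ω' : ℕ → ℕ → ℕ) (ω : ℕ → ℕ → ℕ → ℕ) (M : Fin n → Fin n → Bool)
    (μ : ℕ → Mem) (t : ℕ → ℕ), BigW P a b n W' → Coins P a b n ω' ω →
    (∀ blk < cB a b n, ∀ j < cK n,
      Runs (P.W n) (ω (blk * cK n + j)) P.pre (init (noisy a b M ω' j)) (μ (blk * cK n + j))
        (t (blk * cK n + j))) →
    Tr W' ω' (redPre P a b) (init M)
      (1000 * (cL a b n + 1) * (n + 1) ^ 2 + 10 * ∑ idx ∈ Finset.range (cL a b n), t idx)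
      (fun m' => Regs a b n m' ∧ ∀ idx < cL a b n, Inst (cL a b n) idx m' (μ idx))

/-- PIECE QRY (`P_SIM` may be used). -/
def P_QRY : Prop :=
  P_SIM →
  ∀ (P : Alg) (a b n W' : ℕ) (ω' : ℕ → ℕ → ℕ) (ω : ℕ → ℕ → ℕ → ℕ) (u : Fin n → Bool)
    (m : Mem) (μ μ' : ℕ → Mem) (t : ℕ → ℕ), BigW P a b n W' → Coins P a b n ω' ω →
    Regs a b n m → (∀ r i j, m.a r i j < W') →
    (∀ idx < cL a b n, Inst (cL a b n) idx m (μ idx)) →
    (∀ blk < cB a b n, ∀ j < cK n,
      Runs (P.W n) (ω (blk * cK n + j)) P.qry ((μ (blk * cK n + j)).load (maskv a b u blk))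
        (μ' (blk * cK n + j)) (t (blk * cK n + j))) →
    Tr W' ω' (redQry P) (m.load u)
      (1000 * (cL a b n + 1) * (n + 1) + 10 * ∑ idx ∈ Finset.range (cL a b n), t idx)
      (fun m' => Regs a b n m' ∧ (∀ idx < cL a b n, Inst (cL a b n) idx m' (μ' idx)) ∧
        ∀ r : Fin n, (m'.a 2 0 r ≠ 0 ↔ ∃ blk < cB a b n,
          cK n < 2 * ((Finset.range (cK n)).filter
            (fun j => (μ' (blk * cK n + j)).a 2 0 r ≠ 0)).card))

/-! ## The naive algorithm with early stopping and a clock -/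

/-- The budget for the number of probes for one vector: `n (6 S bits n + 1)`. -/
def budget (a b n : ℕ) : ℕ := n * (6 * (noise a b n * bits n) + 1)

def naivePre (a b : ℕ) : Prog :=
  .seq logP
    (.seq (.assign 4 (eShl (.lit 1) (eDiv (eMul (.lit a) (.reg 3)) (.lit b))))
      (.assign 5 (eMul (.reg 0)
        (eAdd (eMul (.lit 6) (eMul (.reg 4) (eAdd (.reg 3) (.lit 1)))) (.lit 1)))))

/-- First the list of the support of the vector (in the array `3`, its length in the register `6`);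
then for every row the entries at the places of the list are read until a one is found; `r_7`
counts the probes for all rows together, and they stop if `r_7` reaches the budget `r_5`. -/
def naiveQry : Prog :=
  .seq (.assign 6 (.lit 0))
    (.seq (forR 12 (.reg 0) (.ite (.lt (.lit 0) (.get 1 (.lit 0) (.reg 12)))
        (.seq (.store 3 (.lit 0) (.reg 6) (.reg 12)) (.assign 6 (eAdd (.reg 6) (.lit 1)))) .skip))
    (.seq (.assign 7 (.lit 0))
      (forR 12 (.reg 0)
        (.seq (.assign 8 (.lit 0))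
        (.seq (.assign 9 (.lit 0))
        (.seq (.loop (.and (.lt (.reg 8) (.reg 6)) (.and (.eq (.reg 9) (.lit 0))
              (.lt (.reg 7) (.reg 5))))
            (.seq (.assign 9 (.get 0 (.reg 12) (.get 3 (.lit 0) (.reg 8))))
            (.seq (.assign 8 (eAdd (.reg 8) (.lit 1)))
              (.assign 7 (eAdd (.reg 7) (.lit 1))))))
          (.store 2 (.lit 0) (.reg 12) (.reg 9))))))))

/-- The number of the probes for the row `r` without the clock: the places `c` of the support of `u`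
such that there is no witness (a place `c'` with `M r c' = 1` and `u c' = 1`) before `c`. -/
noncomputable def probes {n : ℕ} (M : Fin n → Fin n → Bool) (u : Fin n → Bool) (r : Fin n) : ℕ :=
  Nat.card {c : Fin n // u c = true ∧ ∀ c' < c, ¬ (M r c' = true ∧ u c' = true)}

/-- The memory contains `n`, the budget `Bg` and the matrix `M`. -/
def Keep {n : ℕ} (M : Fin n → Fin n → Bool) (Bg : ℕ) (m : Mem) : Prop :=
  m.v 0 = n ∧ m.v 5 = Bg ∧ ∀ i j : Fin n, m.a 0 i j = (M i j).toNat

/-- PIECE NQ: the naive algorithm, one query. -/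
def P_NQ : Prop :=
  ∀ (W n Bg : ℕ) (ω : ℕ → ℕ → ℕ) (M : Fin n → Fin n → Bool) (u : Fin n → Bool) (m : Mem),
    n + 10 < W → Bg < W → Keep M Bg m →
    Tr W ω naiveQry (m.load u) (100 * (n + 1) + 50 * min Bg (∑ r, probes M u r))
      (fun m' => Keep M Bg m' ∧
        (∑ r, probes M u r ≤ Bg → ∀ r : Fin n, m'.a 2 0 r ≠ 0 ↔ bmv M u r))

/-- PIECE ZERO. Proof: the sum of the probes is the sum over the places `c_0 < c_1 < …` of the
support of `u` of the number of the rows without witness in `{c_0, …, c_(t-1)}`; this number is at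
most `n`, and at most `z` for `t ≥ z + 1`. -/
def P_ZERO : Prop :=
  ∀ (n z : ℕ) (M : Fin n → Fin n → Bool) (u : Fin n → Bool), ¬ ZeroSquare M (z + 1) →
    ∑ r, probes M u r ≤ (2 * z + 1) * n

/-- PIECE NOISE. Proof: union bound; for given sets `I`, `J` of `z = 3 * S * bits n` rows and
columns all the `z ^ 2` entries are zero with probability at most
`(1 - 1 / S) ^ (z ^ 2) ≤ exp (- z ^ 2 / S)`; there are at most `n ^ (2 z)` pairs `(I, J)`, and
`2 z log n - z ^ 2 / S ≤ z (2 bits n - 3 bits n) ≤ - 3`. -/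
def P_NOISE : Prop :=
  ∀ (n S : ℕ) (M : Fin n → Fin n → Bool), 1 ≤ n → 2 ≤ S →
    prob (fun R : Fin n → Fin n → Fin S => ZeroSquare (flip M R) (3 * S * bits n)) ≤ 1 / 3

/-! ## Probability -/

/-- PIECE CHERN (Chernoff bound). Proof: with `y = 34 / 25` and `p = prob Bad`,
`1_{K ≤ 2 #Bad} ≤ ∏_j y^(2 [Bad (g j)] - 1)`, and the mean of the product is
`((1 + p (y ^ 2 - 1)) / y) ^ K ≤ (24 / 25) ^ K`. -/
def P_CHERN : Prop :=
  ∀ (Y : Type) [Fintype Y] [Nonempty Y] (K : ℕ) (Bad : Y → Prop), prob Bad ≤ 1 / 3 + 1 / 64 →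
    prob (fun g : Fin K → Y => K ≤ 2 * Nat.card {j // Bad (g j)}) ≤ (24 / 25 : ℝ) ^ K

/-- PIECE INJ: (1) a map all of whose fibres have the same size preserves probabilities;
(2) composition with an injection; (3) reduction of words modulo `S`. -/
def P_INJ : Prop :=
  (∀ (α β : Type) [Fintype α] [Fintype β] [Nonempty β] (f : α → β) (k : ℕ) (Q : β → Prop), 0 < k →
    (∀ y, Nat.card {x // f x = y} = k) → prob (fun x => Q (f x)) = prob Q) ∧
  (∀ (ι κ X : Type) [Fintype ι] [Fintype κ] [Fintype X] [Nonempty X] (φ : ι → κ)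
    (Q : (ι → X) → Prop), Function.Injective φ →
    prob (fun f : κ → X => Q (fun i => f (φ i))) = prob Q) ∧
  (∀ (ι : Type) [Fintype ι] (S T : ℕ) (hS : 0 < S) (Q : (ι → Fin S) → Prop), S ∣ T → 0 < T →
    prob (fun f : ι → Fin T => Q (fun i => ⟨(f i : ℕ) % S, Nat.mod_lt _ hS⟩)) = prob Q)

/-- PIECE UB: the probability that there is noise in a given row and a block of at most `S / 64`
columns is at most `1 / 64` (union bound). -/
def P_UB : Prop :=
  ∀ (n S : ℕ) (r : Fin n) (C : Finset (Fin n)), 0 < S → 64 * C.card ≤ S →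
    prob (fun R : Fin n → Fin n → Fin S => ∃ c ∈ C, (R r c : ℕ) = 0) ≤ 1 / 64

end Pool.Agent.W2helper22.SM
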