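import Pool.Agent.W2helper22.SM.Stm

set_option autoImplicit false

/-! # Piece INJ: maps with fibres of equal size preserve probabilities -/

namespace Pool.Agent.W2helper22.SM

open Finset

theorem prob_fib {α β : Type} [Finite α] [Finite β] [Nonempty β] (f : α → β) (k : ℕ)
    (Q : β → Prop) (hk : 0 < k) (hf : ∀ y, Nat.card {x // f x = y} = k) :
    prob (fun x => Q (f x)) = prob Q := by
  classical
  have hα := Fintype.ofFinite α
  have hβ := Fintype.ofFinite β
  have key : ∀ R : β → Prop, Nat.card {x // R (f x)} = k * Nat.card {y // R y} := by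
    intro R
    have e : {x // R (f x)} ≃ Σ y : {y // R y}, {x // f x = y.1} :=
      ⟨fun x => ⟨⟨f x.1, x.2⟩, ⟨x.1, rfl⟩⟩, fun p => ⟨p.2.1, by rw [p.2.2]; exact p.1.2⟩,
        fun x => rfl, fun p => by
          obtain ⟨⟨y, hy⟩, ⟨x, hx⟩⟩ := p
          have hx' : f x = y := hx
          revert hx
          subst hx'
          intro hx
          rfl⟩
    rw [Nat.card_congr e, Nat.card_sigma]
    simp only [hf]
    rw [Finset.sum_const, smul_eq_mul, Finset.card_univ, Nat.card_eq_fintype_card, mul_comm]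
  unfold prob
  have h1 := key Q
  have h2 := key (fun _ => True)
  have h3 : Nat.card {x : α // True} = Nat.card α :=
    Nat.card_congr (Equiv.subtypeUnivEquiv (fun _ => trivial))
  have h4 : Nat.card {x : β // True} = Nat.card β :=
    Nat.card_congr (Equiv.subtypeUnivEquiv (fun _ => trivial))
  rw [h3, h4] at h2
  rw [h1, h2]
  have hpos : (0 : ℝ) < Nat.card β := by
    have : 0 < Nat.card β := Nat.card_pos
    exact_mod_cast this
  have hk' : (0 : ℝ) < k := by exact_mod_cast hk
  push_cast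
  field_simp

theorem prob_comp_inj {ι κ X : Type} [Finite ι] [Finite κ] [Finite X] [Nonempty X] (φ : ι → κ)
    (Q : (ι → X) → Prop) (hφ : Function.Injective φ) :
    prob (fun f : κ → X => Q (fun i => f (φ i))) = prob Q := by
  classical
  have hι := Fintype.ofFinite ι
  have hκ := Fintype.ofFinite κ
  have hX := Fintype.ofFinite X
  refine prob_fib (fun (f : κ → X) => fun i => f (φ i))
    (Nat.card ({x : κ // x ∉ Set.range φ} → X)) Q Nat.card_pos ?_
  intro y
  refine Nat.card_congr ⟨fun f => fun x => f.1 x.1,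
    fun g => ⟨fun x => if h : x ∈ Set.range φ then y h.choose else g ⟨x, h⟩, ?_⟩, ?_, ?_⟩
  · funext i
    have h : φ i ∈ Set.range φ := ⟨i, rfl⟩
    simp only [h, dite_true]
    congr 1
    exact hφ h.choose_spec
  · rintro ⟨f, hf⟩
    apply Subtype.ext
    funext x
    by_cases h : x ∈ Set.range φ
    · simp only [h, dite_true]
      rw [← hf]
      show f (φ h.choose) = f x
      rw [h.choose_spec]
    · simp only [h, dite_false]
  · intro g
    funext x
    simp only [x.2, dite_false]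

theorem card_mod_fib (S T : ℕ) (hS : 0 < S) (hd : S ∣ T) (a : Fin S) :
    Nat.card {x : Fin T // (⟨(x : ℕ) % S, Nat.mod_lt _ hS⟩ : Fin S) = a} = T / S := by
  obtain ⟨k, rfl⟩ := hd
  rw [Nat.mul_div_cancel_left _ hS]
  have e : {x : Fin (S * k) // (⟨(x : ℕ) % S, Nat.mod_lt _ hS⟩ : Fin S) = a} ≃ Fin k := by
    refine ⟨fun x => ⟨(x.1 : ℕ) / S, ?_⟩, fun q => ⟨⟨(a : ℕ) + S * q, ?_⟩, ?_⟩, ?_, ?_⟩
    · rw [Nat.div_lt_iff_lt_mul hS]
      have := x.1.2
      rw [mul_comm k S]
      exact this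
    · have h1 := a.2
      have h2 := q.2
      calc (a : ℕ) + S * q < S + S * q := by omega
        _ = S * (q + 1) := by ring
        _ ≤ S * k := Nat.mul_le_mul_left _ h2
    · apply Fin.ext
      show ((a : ℕ) + S * q) % S = a
      rw [Nat.add_mul_mod_self_left, Nat.mod_eq_of_lt a.2]
    · rintro ⟨x, hx⟩
      apply Subtype.ext
      apply Fin.ext
      have h := congrArg Fin.val hx
      simp only at h
      show (a : ℕ) + S * ((x : ℕ) / S) = x
      rw [← h]
      exact Nat.mod_add_div _ _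
    · intro q
      apply Fin.ext
      show ((a : ℕ) + S * q) / S = q
      rw [Nat.add_mul_div_left _ _ hS, Nat.div_eq_of_lt a.2, zero_add]
  rw [Nat.card_congr e, Nat.card_fin]

theorem prob_mod {ι : Type} [Finite ι] (S T : ℕ) (hS : 0 < S) (Q : (ι → Fin S) → Prop)
    (hd : S ∣ T) (hT : 0 < T) :
    prob (fun f : ι → Fin T => Q (fun i => ⟨(f i : ℕ) % S, Nat.mod_lt _ hS⟩)) = prob Q := by
  classical
  have hι := Fintype.ofFinite ι
  have : Nonempty (ι → Fin S) := ⟨fun _ => ⟨0, hS⟩⟩
  have hpos : 0 < T / S := Nat.div_pos (Nat.le_of_dvd hT hd) hS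
  refine prob_fib (fun (f : ι → Fin T) => fun i => (⟨(f i : ℕ) % S, Nat.mod_lt _ hS⟩ : Fin S))
    ((T / S) ^ Fintype.card ι) Q (pow_pos hpos _) ?_
  intro y
  have e : {f : ι → Fin T // (fun i => (⟨(f i : ℕ) % S, Nat.mod_lt _ hS⟩ : Fin S)) = y} ≃
      ∀ i, {x : Fin T // (⟨(x : ℕ) % S, Nat.mod_lt _ hS⟩ : Fin S) = y i} := by
    refine ⟨fun f i => ⟨f.1 i, congrFun f.2 i⟩, fun g => ⟨fun i => (g i).1, ?_⟩, ?_, ?_⟩
    · funext i
      exact (g i).2
    · intro f; rfl
    · intro g; rfl
  rw [Nat.card_congr e, Nat.card_pi]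
  simp only [card_mod_fib S T hS hd]
  rw [prod_const, card_univ]

theorem inj_ok : P_INJ :=
  ⟨fun _ _ _ _ _ f k Q hk hf => prob_fib f k Q hk hf,
    fun _ _ _ _ _ _ _ φ Q hφ => prob_comp_inj φ Q hφ,
    fun _ _ S T hS Q hd hT => prob_mod S T hS Q hd hT⟩

end Pool.Agent.W2helper22.SM
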