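import Pool.Agent.W2helper22.SM.Exec
import Pool.Agent.W2helper22.SM.Prob

set_option autoImplicit false

/-! # The probability that the reduction errs -/

namespace Pool.Agent.W2helper22.SM

open Finset

theorem cK_pos (n : ℕ) : 0 < cK n := by unfold cK; omega

theorem noise_pos (a b n : ℕ) : 0 < noise a b n := by unfold noise; positivity

theorem noise_dvd (a b n : ℕ) (hb : 0 < b) (hab : a ≤ b) : noise a b n ∣ 2 ^ bits n := by
  unfold noise bits
  apply pow_dvd_pow
  calc a * Nat.log 2 n / b ≤ b * Nat.log 2 n / b :=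
        Nat.div_le_div_right (Nat.mul_le_mul_right _ hab)
    _ = Nat.log 2 n := Nat.mul_div_cancel_left _ hb
    _ ≤ Nat.log 2 n + 1 := Nat.le_succ _

/-- The number of the words of one copy: the noise and the coins. -/
abbrev Idx (n W : ℕ) : Type := (Fin n × Fin n) ⊕ (Fin W × Fin W)

/-- The noise matrix of a copy. -/
def nzMat (a b : ℕ) {n W β : ℕ} (y : Idx n W → Fin (2 ^ β)) : Fin n → Fin n → Fin (noise a b n) :=
  fun r c => ⟨(y (Sum.inl (r, c)) : ℕ) % noise a b n, Nat.mod_lt _ (noise_pos a b n)⟩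

/-- The coins of a copy. -/
def cnTape {n W β : ℕ} (y : Idx n W → Fin (2 ^ β)) : Tape W β := fun i j => y (Sum.inr (i, j))

/-- A copy is good for the row `r` and the block `blk`: all its answers are right, and there is no
noise in the row `r` in the block. -/
def Good (P : Alg) (a b : ℕ) {n : ℕ} (M v : Fin n → Fin n → Bool) (r : Fin n) (blk : ℕ)
    (y : Idx n (P.W n) → Fin (2 ^ bits n)) : Prop :=
  (∃ m t, Exec (P.W n) (cnTape y).word P (flip M (nzMat a b y)) (fun i => maskv a b (v i) blk)
      (Right (flip M (nzMat a b y)) (fun i => maskv a b (v i) blk)) n m t) ∧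
    ∀ c : Fin n, (c : ℕ) / cs a b n = blk → (nzMat a b y r c : ℕ) ≠ 0

theorem prob_copy {n W β : ℕ} (a b : ℕ) (hd : noise a b n ∣ 2 ^ β)
    (Q : (Fin n → Fin n → Fin (noise a b n)) × Tape W β → Prop) :
    prob (fun y : Idx n W → Fin (2 ^ β) => Q (nzMat a b y, cnTape y)) = prob Q := by
  classical
  have hS : 0 < noise a b n := noise_pos a b n
  have hT : 0 < 2 ^ β / noise a b n := Nat.div_pos (Nat.le_of_dvd (by positivity) hd) hS
  have hne : Nonempty ((Fin n → Fin n → Fin (noise a b n)) × Tape W β) :=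
    ⟨(fun _ _ => ⟨0, hS⟩, fun _ _ => ⟨0, by positivity⟩)⟩
  refine prob_fib (fun y : Idx n W → Fin (2 ^ β) => (nzMat a b y, cnTape y))
    ((2 ^ β / noise a b n) ^ Fintype.card (Fin n × Fin n)) Q (pow_pos hT _) ?_
  rintro ⟨R, ω⟩
  have e : {y : Idx n W → Fin (2 ^ β) // (nzMat a b y, cnTape y) = (R, ω)} ≃
      ∀ p : Fin n × Fin n, {x : Fin (2 ^ β) //
        (⟨(x : ℕ) % noise a b n, Nat.mod_lt _ hS⟩ : Fin (noise a b n)) = R p.1 p.2} := by
    refine ⟨fun y p => ⟨y.1 (Sum.inl p), ?_⟩, fun g => ⟨fun x => match x with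
      | Sum.inl p => (g p).1
      | Sum.inr p => ω p.1 p.2, ?_⟩, ?_, ?_⟩
    · have := congrArg Prod.fst y.2
      exact congrFun (congrFun this p.1) p.2
    · refine Prod.ext ?_ ?_
      · funext r c
        exact (g (r, c)).2
      · rfl
    · rintro ⟨y, hy⟩
      apply Subtype.ext
      funext x
      rcases x with p | p
      · rfl
      · have := congrArg Prod.snd hy
        exact (congrFun (congrFun this p.1) p.2).symm
    · intro g
      rfl
  rw [Nat.card_congr e, Nat.card_pi]
  simp only [card_mod_fib (noise a b n) (2 ^ β) hS hd]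
  rw [prod_const, card_univ]

theorem Right_zero_block {n : ℕ} (a b : ℕ) (M : Fin n → Fin n → Bool) (S : ℕ)
    (R : Fin n → Fin n → Fin S) (u : Fin n → Bool) (blk : ℕ) (r : Fin n)
    (h : ∀ c : Fin n, (c : ℕ) / cs a b n = blk → (R r c : ℕ) ≠ 0) :
    bmv (flip M R) (maskv a b u blk) r ↔ bmv M (maskv a b u blk) r := by
  unfold bmv
  refine exists_congr (fun c => ?_)
  constructor
  · rintro ⟨h1, h2⟩
    refine ⟨?_, h2⟩
    have hc : (c : ℕ) / cs a b n = blk := by
      simp only [maskv, Bool.and_eq_true, decide_eq_true_eq] at h2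
      exact h2.2
    have := h c hc
    simpa [flip, this] using h1
  · rintro ⟨h1, h2⟩
    refine ⟨?_, h2⟩
    have hc : (c : ℕ) / cs a b n = blk := by
      simp only [maskv, Bool.and_eq_true, decide_eq_true_eq] at h2
      exact h2.2
    have := h c hc
    simpa [flip, this] using h1

/-- The answers of a good copy. -/
theorem Good.out {P : Alg} {a b n : ℕ} {M v : Fin n → Fin n → Bool} {r : Fin n} {blk : ℕ}
    {y : Idx n (P.W n) → Fin (2 ^ bits n)} (h : Good P a b M v r blk y) (i : Fin n) :
    outBit P (P.W n) (cnTape y).word (flip M (nzMat a b y)) (fun i => maskv a b (v i) blk) i r ↔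
      bmv M (maskv a b (v i) blk) r := by
  obtain ⟨⟨m, t, he⟩, hz⟩ := h
  rw [← Right_zero_block a b M _ (nzMat a b y) (v i) blk r hz]
  -- the prefix of the execution
  have hpre : ∀ N m t, Exec (P.W n) (cnTape y).word P (flip M (nzMat a b y))
      (fun i => maskv a b (v i) blk)
      (Right (flip M (nzMat a b y)) (fun i => maskv a b (v i) blk)) N m t → (i : ℕ) + 1 ≤ N →
      ∃ m' t', Exec (P.W n) (cnTape y).word P (flip M (nzMat a b y))
        (fun i => maskv a b (v i) blk)
        (Right (flip M (nzMat a b y)) (fun i => maskv a b (v i) blk)) ((i : ℕ) + 1) m' t' ∧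
        Right (flip M (nzMat a b y)) (fun i => maskv a b (v i) blk) i m' := by
    intro N m t h
    induction h with
    | start _ => intro hi; omega
    | @next k m m' t c hk h hr hg ih =>
      intro hi
      by_cases hki : (i : ℕ) = k
      · subst hki
        exact ⟨m', t + c, .next hk h hr hg, hg⟩
      · exact ih (by omega)
  obtain ⟨m', t', he', hR⟩ := hpre n m t he i.2
  constructor
  · rintro ⟨m1, t1, he1, hne⟩
    have := he1.det he'
    rw [this.1] at hne
    exact (hR r).1 hne
  · intro hb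
    exact ⟨m', t', he'.weaken (fun _ _ _ => trivial), (hR r).2 hb⟩

/-- Majority decoding. -/
theorem majority {K : ℕ} (G O : Fin K → Prop) (B : Prop)
    (hG : ∀ j, G j → (O j ↔ B)) (hK : ¬ K ≤ 2 * Nat.card {j // ¬ G j}) :
    K < 2 * Nat.card {j // O j} ↔ B := by
  classical
  have h1 : Nat.card {j // G j} + Nat.card {j // ¬ G j} = K := by
    rw [Nat.card_eq_fintype_card, Nat.card_eq_fintype_card]
    have := Fintype.card_subtype_compl G
    have h2 := Fintype.card_subtype_le G
    rw [Fintype.card_fin] at this h2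
    omega
  by_cases hB : B
  · refine iff_of_true ?_ hB
    have h2 : Nat.card {j // G j} ≤ Nat.card {j // O j} :=
      Nat.card_le_card_of_injective (fun x : {j // G j} => (⟨x.1, (hG _ x.2).2 hB⟩ : {j // O j}))
        (fun x y hxy => by
          simp only [Subtype.mk.injEq] at hxy
          exact Subtype.ext hxy)
    omega
  · refine iff_of_false ?_ hB
    have h2 : Nat.card {j // O j} ≤ Nat.card {j // ¬ G j} :=
      Nat.card_le_card_of_injective (fun x : {j // O j} =>
        (⟨x.1, fun hg => hB ((hG _ hg).1 x.2)⟩ : {j // ¬ G j}))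
        (fun x y hxy => by
          simp only [Subtype.mk.injEq] at hxy
          exact Subtype.ext hxy)
    omega

/-- The probability that a copy is bad. -/
theorem prob_bad (P : Alg) (a b : ℕ) {n : ℕ} (M v : Fin n → Fin n → Bool) (T : ℝ) (hb : 0 < b)
    (hab : a ≤ b) (hS : 64 ≤ noise a b n) (hsm : Smoothed P n (noise a b n) T) (r : Fin n)
    (blk : ℕ) : prob (fun y => ¬ Good P a b M v r blk y) ≤ 1 / 3 + 1 / 64 := by
  classical
  have hd := noise_dvd a b n hb hab
  have hSpos := noise_pos a b n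
  let Q1 : (Fin n → Fin n → Fin (noise a b n)) × Tape (P.W n) (bits n) → Prop :=
    fun p => Solves P p.2.word (flip M p.1) (fun i => maskv a b (v i) blk) T
  let C : Finset (Fin n) := univ.filter (fun c : Fin n => (c : ℕ) / cs a b n = blk)
  let Q2 : (Fin n → Fin n → Fin (noise a b n)) × Tape (P.W n) (bits n) → Prop :=
    fun p => ∃ c ∈ C, (p.1 r c : ℕ) = 0
  have h1 : 2 / 3 ≤ prob Q1 := (hsm M (fun i => maskv a b (v i) blk)).2
  have hcs : 64 * cs a b n ≤ noise a b n := by
    unfold cs
    exact Nat.mul_div_le _ _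
  have hcspos : 0 < cs a b n := by
    unfold cs
    exact Nat.div_pos hS (by norm_num)
  have hC : 64 * C.card ≤ noise a b n := by
    refine le_trans (Nat.mul_le_mul_left _ ?_) hcs
    -- the block is contained in an interval
    have : (C.image (fun c : Fin n => (c : ℕ))) ⊆ Finset.Ico (blk * cs a b n) ((blk + 1) * cs a b n) := by
      intro x hx
      rw [mem_image] at hx
      obtain ⟨c, hc, rfl⟩ := hx
      have hc' : (c : ℕ) / cs a b n = blk := (mem_filter.1 hc).2
      rw [mem_Ico]
      constructor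
      · rw [← hc']
        exact Nat.div_mul_le_self _ _
      · rw [← hc']
        exact Nat.lt_mul_of_div_lt (Nat.lt_succ_self _) hcspos
    calc C.card = (C.image (fun c : Fin n => (c : ℕ))).card :=
          (card_image_of_injective _ Fin.val_injective).symm
      _ ≤ (Finset.Ico (blk * cs a b n) ((blk + 1) * cs a b n)).card := card_le_card this
      _ = cs a b n := by
        rw [Nat.card_Ico, Nat.add_mul, Nat.one_mul, Nat.add_sub_cancel_left]
  have hneR : Nonempty (Fin n → Fin n → Fin (noise a b n)) := ⟨fun _ _ => ⟨0, hSpos⟩⟩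
  have hneT : Nonempty (Tape (P.W n) (bits n)) := ⟨fun _ _ => ⟨0, by positivity⟩⟩
  have h2 : prob Q2 ≤ 1 / 64 := by
    have h3 := ub_ok n (noise a b n) r C hSpos hC
    have h4 : prob Q2 = prob (fun R : Fin n → Fin n → Fin (noise a b n) =>
        ∃ c ∈ C, (R r c : ℕ) = 0) := by
      refine prob_fib (fun p : (Fin n → Fin n → Fin (noise a b n)) × Tape (P.W n) (bits n) =>
        p.1) (Nat.card (Tape (P.W n) (bits n)))
        (fun R => ∃ c ∈ C, (R r c : ℕ) = 0) Nat.card_pos ?_
      intro R
      refine Nat.card_congr ⟨fun x => x.1.2, fun ω => ⟨(R, ω), rfl⟩, ?_, fun _ => rfl⟩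
      rintro ⟨⟨R', ω⟩, hR⟩
      have hR' : R' = R := hR
      subst hR'
      rfl
    rw [h4]
    exact h3
  have h5 : prob (fun y : Idx n (P.W n) → Fin (2 ^ bits n) => ¬ Good P a b M v r blk y) ≤
      prob (fun y : Idx n (P.W n) → Fin (2 ^ bits n) =>
        (¬ Q1 (nzMat a b y, cnTape y)) ∨ Q2 (nzMat a b y, cnTape y)) := by
    refine prob_mono ?_
    intro y hy
    by_contra hcon
    rw [not_or, not_not] at hcon
    apply hy
    refine ⟨?_, ?_⟩
    · obtain ⟨m, t, he, _⟩ := hcon.1
      exact ⟨m, t, he⟩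
    · intro c hc h0
      exact hcon.2 ⟨c, mem_filter.2 ⟨mem_univ _, hc⟩, h0⟩
  refine h5.trans ((prob_or _ _).trans ?_)
  have h6 := prob_copy (n := n) (W := P.W n) (β := bits n) a b hd (fun p => ¬ Q1 p)
  have h7 := prob_copy (n := n) (W := P.W n) (β := bits n) a b hd Q2
  rw [h6, h7, prob_not]
  linarith

end Pool.Agent.W2helper22.SM
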