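import Mathlib

set_option autoImplicit false

/-!
# The word RAM and the problem OMv

A random access machine with words of `O(log n)` bits, programmed by structured programs, with
explicit running time. It has registers and two-dimensional arrays; in unit time it does an
arithmetical or bitwise operation, a test, a load, a store, or reads a random word. The random words
form a table of independent uniform words with random access (so drawing a fresh random word is
reading the next entry of the table).
-/

namespace Pool.Agent.W2helper22.SM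

/-- Memory: registers `v x` and arrays; `a r i j` is the entry `(i, j)` of the array number `r`. -/
@[ext]
structure Mem where
  /-- registers -/
  v : ℕ → ℕ
  /-- arrays -/
  a : ℕ → ℕ → ℕ → ℕ

/-- Write `n` to the register `x`. -/
def Mem.setV (m : Mem) (x n : ℕ) : Mem := ⟨fun y => if y = x then n else m.v y, m.a⟩

/-- Write `n` to the entry `(i, j)` of the array `r`. -/
def Mem.setA (m : Mem) (r i j n : ℕ) : Mem :=
  ⟨m.v, fun r' i' j' => if r' = r ∧ i' = i ∧ j' = j then n else m.a r' i' j'⟩

/-- The unit-cost operations on words. -/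
inductive Op where
  | add | sub | mul | div | mod | land | lor | xor | shl | shr

/-- The values of the operations (`sub` is the truncated subtraction). -/
def Op.fn : Op → ℕ → ℕ → ℕ
  | .add, x, y => x + y
  | .sub, x, y => x - y
  | .mul, x, y => x * y
  | .div, x, y => x / y
  | .mod, x, y => x % y
  | .land, x, y => x &&& y
  | .lor, x, y => x ||| y
  | .xor, x, y => x ^^^ y
  | .shl, x, y => x <<< y
  | .shr, x, y => x >>> y

/-- Expressions: constants, registers, operations, entries of arrays, random words. -/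
inductive Expr where
  | lit (n : ℕ)
  | reg (x : ℕ)
  | bin (o : Op) (e f : Expr)
  | get (r : ℕ) (i j : Expr)
  | rnd (i j : Expr)

/-- Value of an expression; `ω i j` is the random word with the number `(i, j)`. -/
def Expr.eval (ω : ℕ → ℕ → ℕ) (m : Mem) : Expr → ℕ
  | .lit n => n
  | .reg x => m.v x
  | .bin o e f => o.fn (e.eval ω m) (f.eval ω m)
  | .get r i j => m.a r (i.eval ω m) (j.eval ω m)
  | .rnd i j => ω (i.eval ω m) (j.eval ω m)

/-- All the numbers which occur in the evaluation of an expression are words: less than `W`. -/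
def Expr.ok (W : ℕ) (ω : ℕ → ℕ → ℕ) (m : Mem) : Expr → Prop
  | .lit n => n < W
  | .reg x => m.v x < W
  | .bin o e f => e.ok W ω m ∧ f.ok W ω m ∧ o.fn (e.eval ω m) (f.eval ω m) < W
  | .get r i j => i.ok W ω m ∧ j.ok W ω m ∧ m.a r (i.eval ω m) (j.eval ω m) < W
  | .rnd i j => i.ok W ω m ∧ j.ok W ω m ∧ ω (i.eval ω m) (j.eval ω m) < W

/-- Time to evaluate an expression: its number of symbols. -/
def Expr.cost : Expr → ℕ
  | .lit _ => 1
  | .reg _ => 1
  | .bin _ e f => e.cost + f.cost + 1
  | .get _ i j => i.cost + j.cost + 1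
  | .rnd i j => i.cost + j.cost + 1

/-- Tests. -/
inductive Test where
  | lt (e f : Expr)
  | eq (e f : Expr)
  | not (s : Test)
  | and (s t : Test)

/-- Truth of a test. -/
def Test.holds (ω : ℕ → ℕ → ℕ) (m : Mem) : Test → Prop
  | .lt e f => e.eval ω m < f.eval ω m
  | .eq e f => e.eval ω m = f.eval ω m
  | .not s => ¬ s.holds ω m
  | .and s t => s.holds ω m ∧ t.holds ω m

/-- All the numbers which occur in a test are words. -/
def Test.ok (W : ℕ) (ω : ℕ → ℕ → ℕ) (m : Mem) : Test → Prop
  | .lt e f => e.ok W ω m ∧ f.ok W ω m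
  | .eq e f => e.ok W ω m ∧ f.ok W ω m
  | .not s => s.ok W ω m
  | .and s t => s.ok W ω m ∧ t.ok W ω m

/-- Time to evaluate a test. -/
def Test.cost : Test → ℕ
  | .lt e f => e.cost + f.cost + 1
  | .eq e f => e.cost + f.cost + 1
  | .not s => s.cost + 1
  | .and s t => s.cost + t.cost + 1

/-- Programs. -/
inductive Prog where
  | skip
  | assign (x : ℕ) (e : Expr)
  | store (r : ℕ) (i j e : Expr)
  | seq (p q : Prog)
  | ite (t : Test) (p q : Prog)
  | loop (t : Test) (p : Prog)

/-- `Runs W ω p m m' c`: with the random words `ω` the program `p`, started in the memory `m`,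
stops in the memory `m'` after time `c`, and all numbers which occur are less than `W`. -/
inductive Runs (W : ℕ) (ω : ℕ → ℕ → ℕ) : Prog → Mem → Mem → ℕ → Prop where
  | skip (m : Mem) : Runs W ω .skip m m 1
  | assign (x : ℕ) (e : Expr) (m : Mem) : e.ok W ω m →
      Runs W ω (.assign x e) m (m.setV x (e.eval ω m)) (e.cost + 1)
  | store (r : ℕ) (i j e : Expr) (m : Mem) : i.ok W ω m → j.ok W ω m → e.ok W ω m →
      Runs W ω (.store r i j e) m (m.setA r (i.eval ω m) (j.eval ω m) (e.eval ω m))
        (i.cost + j.cost + e.cost + 1)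
  | seq {p q : Prog} {m m' m'' : Mem} {c d : ℕ} :
      Runs W ω p m m' c → Runs W ω q m' m'' d → Runs W ω (.seq p q) m m'' (c + d)
  | ite_true {t : Test} {p q : Prog} {m m' : Mem} {c : ℕ} : t.ok W ω m →
      t.holds ω m → Runs W ω p m m' c → Runs W ω (.ite t p q) m m' (t.cost + c)
  | ite_false {t : Test} {p q : Prog} {m m' : Mem} {c : ℕ} : t.ok W ω m →
      ¬ t.holds ω m → Runs W ω q m m' c → Runs W ω (.ite t p q) m m' (t.cost + c)
  | loop_done {t : Test} {p : Prog} {m : Mem} : t.ok W ω m →
      ¬ t.holds ω m → Runs W ω (.loop t p) m m t.cost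
  | loop_step {t : Test} {p : Prog} {m m' m'' : Mem} {c d : ℕ} : t.ok W ω m →
      t.holds ω m → Runs W ω p m m' c → Runs W ω (.loop t p) m' m'' d →
      Runs W ω (.loop t p) m m'' (t.cost + c + d)

/-- An online algorithm: the program `pre` preprocesses the matrix, the program `qry` answers the
next vector; the words have `wd` times as many bits as `n`. -/
structure Alg where
  pre : Prog
  qry : Prog
  wd : ℕ

/-- The number of bits of `n`. -/
def bits (n : ℕ) : ℕ := Nat.log 2 n + 1

/-- The words of the algorithm are the numbers less than `A.W n`: they have `A.wd * bits n` bits. -/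
def Alg.W (A : Alg) (n : ℕ) : ℕ := 2 ^ (A.wd * bits n)

/-- The initial memory: the register `0` contains `n`, the array `0` contains the matrix `M`,
everything else is zero. -/
def init {n : ℕ} (M : Fin n → Fin n → Bool) : Mem :=
  ⟨fun x => if x = 0 then n else 0,
    fun r i j => if h : r = 0 ∧ i < n ∧ j < n then (M ⟨i, h.2.1⟩ ⟨j, h.2.2⟩).toNat else 0⟩

/-- The arrival of a vector: it is written to the row `0` of the array `1`. -/
def Mem.load {n : ℕ} (m : Mem) (u : Fin n → Bool) : Mem :=
  ⟨m.v, fun r i j => if h : r = 1 ∧ i = 0 ∧ j < n then (u ⟨j, h.2.2⟩).toNat else m.a r i j⟩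

/-- `Exec W ω A M v G k m t`: the algorithm `A` gets the matrix `M` and then the first `k` of the
vectors `v 0, v 1, …`, one at a time; afterwards the memory is `m`, the total time is `t`, and
`G i` holds for the memory after the answer to `v i`, for all `i < k`. -/
inductive Exec (W : ℕ) (ω : ℕ → ℕ → ℕ) (A : Alg) {n : ℕ} (M v : Fin n → Fin n → Bool)
    (G : Fin n → Mem → Prop) : ℕ → Mem → ℕ → Prop where
  | start {m : Mem} {t : ℕ} : Runs W ω A.pre (init M) m t → Exec W ω A M v G 0 m t
  | next {k : ℕ} {m m' : Mem} {t c : ℕ} (h : k < n) : Exec W ω A M v G k m t →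
      Runs W ω A.qry (m.load (v ⟨k, h⟩)) m' c → G ⟨k, h⟩ m' → Exec W ω A M v G (k + 1) m' (t + c)

/-- The entry `r` of the Boolean product `M u`. -/
def bmv {n : ℕ} (M : Fin n → Fin n → Bool) (u : Fin n → Bool) (r : Fin n) : Prop :=
  ∃ c, M r c = true ∧ u c = true

/-- The answer to the vector `v i`, in the row `0` of the array `2`, is the Boolean product. -/
def Right {n : ℕ} (M v : Fin n → Fin n → Bool) (i : Fin n) (m : Mem) : Prop :=
  ∀ r : Fin n, m.a 2 0 r ≠ 0 ↔ bmv M (v i) r

/-- With the random words `ω` the algorithm answers all `n` vectors in total time at most `T`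
(no matter whether the answers are right). -/
def Halts (A : Alg) (ω : ℕ → ℕ → ℕ) {n : ℕ} (M v : Fin n → Fin n → Bool) (T : ℝ) : Prop :=
  ∃ m t, Exec (A.W n) ω A M v (fun _ _ => True) n m t ∧ (t : ℝ) ≤ T

/-- With the random words `ω` the algorithm answers all `n` vectors correctly, in total time at
most `T`. -/
def Solves (A : Alg) (ω : ℕ → ℕ → ℕ) {n : ℕ} (M v : Fin n → Fin n → Bool) (T : ℝ) : Prop :=
  ∃ m t, Exec (A.W n) ω A M v (Right M v) n m t ∧ (t : ℝ) ≤ T

/-- The tables of random words: words of `β` bits, with the numbers `(i, j)`, `i, j < W`. -/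
abbrev Tape (W β : ℕ) : Type := Fin W → Fin W → Fin (2 ^ β)

/-- The random word with the number `(i, j)`. -/
def Tape.word {W β : ℕ} (ω : Tape W β) (i j : ℕ) : ℕ :=
  if h : i < W ∧ j < W then (ω ⟨i, h.1⟩ ⟨j, h.2⟩ : ℕ) else 0

/-- The probability of `P` for the uniform distribution on a finite set. -/
noncomputable def prob {Ω : Type} (P : Ω → Prop) : ℝ :=
  (Nat.card {ω // P ω} : ℝ) / (Nat.card Ω : ℝ)

/-- The algorithm solves OMv of size `n` in time `T` with error probability at most `1 / 3`. -/
def WorstCase (A : Alg) (n : ℕ) (T : ℝ) : Prop :=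
  ∀ M v : Fin n → Fin n → Bool,
    (∀ ω : Tape (A.W n) (bits n), Halts A ω.word M v T) ∧
    2 / 3 ≤ prob fun ω : Tape (A.W n) (bits n) => Solves A ω.word M v T

/-- The OMv conjecture fails: for some `τ < 3` there is an algorithm for OMv with running time at
most `n ^ τ` for all large `n`. -/
def OMvFast : Prop :=
  ∃ A : Alg, ∃ τ : ℝ, τ < 3 ∧ ∀ᶠ n : ℕ in Filter.atTop, WorstCase A n ((n : ℝ) ^ τ)

end Pool.Agent.W2helper22.SM
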