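import Pool.Agent.W2helper22.SM.Model

set_option autoImplicit false

/-!
# Smoothed OMv: noise in the matrix and in the vectors
-/

namespace Pool.Agent.W2helper22.SM

/-- The noise rate `n ^ (-a / b)`, rounded to `1 / noise a b n` with a power of two. -/
def noise (a b n : ℕ) : ℕ := 2 ^ (a * Nat.log 2 n / b)

/-- A noise level: `none` is no noise, `some (a, b)` is the noise rate `n ^ (-a / b)`. -/
abbrev Level : Type := Option (ℕ × ℕ)

/-- The exponents are rational numbers `a / b ∈ (0, 1]`. -/
def Level.Valid : Level → Prop
  | none => True
  | some p => 0 < p.1 ∧ p.1 ≤ p.2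

/-- The denominator of the noise rate. -/
def Level.den (n : ℕ) : Level → ℕ
  | none => 1
  | some p => noise p.1 p.2 n

/-- The numerator of the noise rate. -/
def Level.num : Level → ℕ
  | none => 0
  | some _ => 1

/-- The exponent `c` of the noise rate `n ^ (-c)`; no noise has the exponent `1` by convention. -/
noncomputable def Level.rate : Level → ℝ
  | none => 1
  | some p => (p.1 : ℝ) / p.2

/-- The matrix `M` with the entries `(i, k)` flipped for which `R i k` is smaller than the numerator
of the noise rate, so with probability `num / den` if `R` is uniform. Also for sequences of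
vectors. -/
def Level.flip (c : Level) {n : ℕ} (M : Fin n → Fin n → Bool) (R : Fin n → Fin n → Fin (c.den n)) :
    Fin n → Fin n → Bool :=
  fun i k => xor (M i k) (decide ((R i k : ℕ) < c.num))

/-- The algorithm solves the smoothed problem OMv of size `n` in time `T` with error probability at
most `1 / 3`: for every matrix `M` and all vectors `v`, after noise of the level `c` was applied to
the matrix and noise of the level `d` to the vectors. -/
def Smoothed2 (A : Alg) (n : ℕ) (c d : Level) (T : ℝ) : Prop :=
  ∀ M v : Fin n → Fin n → Bool,
    (∀ (R : Fin n → Fin n → Fin (c.den n)) (R' : Fin n → Fin n → Fin (d.den n))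
      (ω : Tape (A.W n) (bits n)), Halts A ω.word (c.flip M R) (d.flip v R') T) ∧
    2 / 3 ≤ prob fun p : (Fin n → Fin n → Fin (c.den n)) × (Fin n → Fin n → Fin (d.den n)) ×
      Tape (A.W n) (bits n) => Solves A p.2.2.word (c.flip M p.1) (d.flip v p.2.1) T

/-- The smoothed problem with noise of the levels `c` and `d` can be solved in time `n ^ τ`. -/
def Fast2 (c d : Level) (τ : ℝ) : Prop :=
  ∃ A : Alg, ∀ᶠ n : ℕ in Filter.atTop, Smoothed2 A n c d ((n : ℝ) ^ τ)

end Pool.Agent.W2helper22.SM
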