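import Pool.Agent.W2helper22.SM.Model2

set_option autoImplicit false

/-!
# Smoothed OMv: noise in the matrix only
-/

namespace Pool.Agent.W2helper22.SM

/-- The matrix `M` with the entries `(r, c)` flipped for which `R r c = 0`. -/
def flip {n S : ℕ} (M : Fin n → Fin n → Bool) (R : Fin n → Fin n → Fin S) :
    Fin n → Fin n → Bool :=
  fun r c => xor (M r c) (decide ((R r c : ℕ) = 0))

/-- The algorithm solves the smoothed problem OMv of size `n` in time `T` with error probability at
most `1 / 3`: for every matrix `M`, after every entry of `M` was flipped independently with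
probability `1 / S`. -/
def Smoothed (A : Alg) (n S : ℕ) (T : ℝ) : Prop :=
  ∀ M v : Fin n → Fin n → Bool,
    (∀ (R : Fin n → Fin n → Fin S) (ω : Tape (A.W n) (bits n)), Halts A ω.word (flip M R) v T) ∧
    2 / 3 ≤ prob fun p : (Fin n → Fin n → Fin S) × Tape (A.W n) (bits n) =>
      Solves A p.2.word (flip M p.1) v T

/-- Smoothed OMv with the noise rate `n ^ (-a / b)` can be solved in time `n ^ τ`. -/
def SmoothedFast (a b : ℕ) (τ : ℝ) : Prop :=
  ∃ A : Alg, ∀ᶠ n : ℕ in Filter.atTop, Smoothed A n (noise a b n) ((n : ℝ) ^ τ)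

/-- The matrix has a square submatrix of side `z` (arbitrary rows and columns) without ones. -/
def ZeroSquare {n : ℕ} (M : Fin n → Fin n → Bool) (z : ℕ) : Prop :=
  ∃ I J : Finset (Fin n), I.card = z ∧ J.card = z ∧ ∀ r ∈ I, ∀ c ∈ J, M r c = false

end Pool.Agent.W2helper22.SM
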